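import Pool.Agent.Lib.RYE.Blue
import Pool.Agent.Lib.RA.T_RAD

/-! Step E: specialisation of the first variables and radicals. -/

open scoped Classical Topology
open Set Metric Filter

set_option linter.unusedVariables false

noncomputable section

namespace Pool.Agent.Lib.RAE

open Pool.Agent.Lib.SV (E nsq)
open Pool.Agent.Lib.RA

namespace AL1B

variable {q m : ℕ} {K : Type} [Field K]

/-- The field of constants. -/
def cst (D : Fin q → K → K) (ha : ∀ b α β, D b (α + β) = D b α + D b β)
    (hm : ∀ b α β, D b (α * β) = α * D b β + D b α * β) : Subfield K where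
  carrier := {x | ∀ b, D b x = 0}
  mul_mem' := fun {x y} hx hy b => by rw [hm, hx b, hy b, mul_zero, zero_mul, add_zero]
  one_mem' := fun b => by
    have := hm b 1 1
    rw [one_mul, one_mul, mul_one] at this
    exact left_eq_add.1 this
  add_mem' := fun {x y} hx hy b => by rw [ha, hx b, hy b, add_zero]
  zero_mem' := fun b => by
    have := ha b 0 0
    rw [add_zero] at this
    exact left_eq_add.1 this
  neg_mem' := fun {x} hx b => by
    have h0 := ha b 0 0
    rw [add_zero] at h0
    have := ha b x (-x)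
    rw [add_neg_cancel, left_eq_add.1 h0, hx b, zero_add] at this
    exact this.symm
  inv_mem' := fun x hx b => by
    have h0 := ha b 0 0
    rw [add_zero] at h0
    have h1 := hm b 1 1
    rw [one_mul, one_mul, mul_one] at h1
    rcases eq_or_ne x 0 with rfl | h
    · rw [inv_zero]
      exact left_eq_add.1 h0
    · have := hm b x x⁻¹
      rw [mul_inv_cancel₀ h, left_eq_add.1 h1, hx b, zero_mul, add_zero] at this
      exact (mul_eq_zero.1 this.symm).resolve_left h

/-- The coefficient of a power of the last variable. -/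
def cp (A : (Fin q → Fin (m + 1)) × Fin (m + 1) → K) (i : Fin (m + 1)) : MvPolynomial (Fin q) K :=
  ∑ β : Fin q → Fin (m + 1),
    MvPolynomial.monomial (Finsupp.equivFunOnFinite.symm fun b => (β b).val) (A (β, i))

theorem cp_ne {A : (Fin q → Fin (m + 1)) × Fin (m + 1) → K} {β : Fin q → Fin (m + 1)}
    {i : Fin (m + 1)} (h : A (β, i) ≠ 0) : cp A i ≠ 0 := fun h0 => h <| by
  have := congrArg (MvPolynomial.coeff (Finsupp.equivFunOnFinite.symm fun b => (β b).val)) h0
  rw [cp, MvPolynomial.coeff_sum, Finset.sum_eq_single β, MvPolynomial.coeff_monomial, if_pos rfl,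
    MvPolynomial.coeff_zero] at this
  · exact this
  · intro β' _ hne
    rw [MvPolynomial.coeff_monomial, if_neg]
    intro e
    exact hne (funext fun b => Fin.ext (congrFun (Finsupp.equivFunOnFinite.symm.injective e) b))
  · exact fun h => absurd (Finset.mem_univ _) h

theorem coeff_spc (κ : ℂ →+* K) (A : (Fin q → Fin (m + 1)) × Fin (m + 1) → K) (c : E q)
    (i : Fin (m + 1)) :
    (spc κ A c).coeff i.val = MvPolynomial.eval (fun b => κ (c b)) (cp A i) := by
  rw [spc, cp, Polynomial.finsetSum_coeff, map_sum, Fintype.sum_prod_type]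
  refine Finset.sum_congr rfl fun β _ => ?_
  rw [Finset.sum_eq_single i, Polynomial.coeff_C_mul_X_pow, if_pos rfl, MvPolynomial.eval_monomial,
    Finsupp.prod_fintype _ _ fun _ => pow_zero _]
  · rfl
  · intro i' _ hne
    rw [Polynomial.coeff_C_mul_X_pow, if_neg fun e => hne (Fin.ext e.symm)]
  · exact fun h => absurd (Finset.mem_univ _) h

theorem exists_pt {ι : Type} [Fintype ι] (κ : ℂ →+* K)
    (A : ι → (Fin q → Fin (m + 1)) × Fin (m + 1) → K) (hA : ∀ l, A l ≠ 0) (c : E q) {R : ℝ}
    (hR : 0 < R) : ∃ c' ∈ ball c R, ∀ l, spc κ (A l) c' ≠ 0 := by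
  choose α hα using fun l => Function.ne_iff.1 (hA l)
  have h1 : ∏ l, cp (A l) (α l).2 ≠ 0 := Finset.prod_ne_zero_iff.2 fun l _ => cp_ne (hα l)
  by_contra hn
  refine h1 (MvPolynomial.funext_set (fun b => κ '' ball (c b) R) (fun b =>
    (infinite_of_mem_nhds (c b) (ball_mem_nhds _ hR)).image κ.injective.injOn) fun x hx => ?_)
  choose c' h2 h3 using fun b => hx b (mem_univ b)
  by_contra h4
  refine hn ⟨c', by rw [ball_pi _ hR]; exact fun b _ => h2 b, fun l h5 => h4 ?_⟩
  have h6 := coeff_spc κ (A l) c' (α l).2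
  rw [h5, Polynomial.coeff_zero, funext h3] at h6
  rw [map_prod, map_zero]
  exact Finset.prod_eq_zero (Finset.mem_univ l) h6.symm

end AL1B

open AL1B in
theorem st_AL1 : St_AL1 := by
  intro q m ι _ K _ _ κ D A c R ha hm hκ hA hD hR
  obtain ⟨c', hc, h⟩ := exists_pt κ A hA c hR
  refine ⟨c', hc, fun l => ?_⟩
  let C := cst D ha hm
  let κ' : ℂ →+* C := κ.codRestrict C fun s b => hκ b s
  let A' : (Fin q → Fin (m + 1)) × Fin (m + 1) → C := fun α => ⟨A l α, hD l α⟩
  have e : (spc κ' A' c').map C.subtype = spc κ (A l) c' := by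
    simp only [spc, Polynomial.map_sum, Polynomial.map_mul, Polynomial.map_pow, Polynomial.map_C,
      Polynomial.map_X, map_mul, map_prod, map_pow, Polynomial.map_prod]
    rfl
  have hne : spc κ' A' c' ≠ 0 := fun h0 => h l (by rw [← e, h0, Polynomial.map_zero])
  obtain ⟨P, U, V, Q, N, h1, h2, h3, -⟩ := st_RAD C _ hne
  refine ⟨P.map C.subtype, U.map C.subtype, V.map C.subtype, Q.map C.subtype, N, h1.map _,
    fun i b => ?_, ?_, ?_⟩
  · rw [Polynomial.coeff_map]
    exact (P.coeff i).2 b
  · rw [Polynomial.derivative_map, ← Polynomial.map_mul, ← Polynomial.map_mul,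
      ← Polynomial.map_add, h2, Polynomial.map_one]
  · rw [← Polynomial.map_pow, h3, Polynomial.map_mul, e]

end Pool.Agent.Lib.RAE
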