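import Pool.Agent.Lib.RYE.Blue
import Pool.Agent.Lib.RY.B_MER

/-! Project ra2, step E: families of polynomials. -/

open scoped Classical Topology ContDiff ComplexOrder Matrix
open Set MeasureTheory Complex Metric Filter

set_option linter.unusedVariables false
set_option linter.unusedSectionVars false

noncomputable section

namespace Pool.Agent.Lib.RAE

open Pool.Agent.Lib.SV (E nsq)
open Pool.Agent.Lib.HS32 Pool.Agent.Lib.PN Pool.Agent.Lib.RA Polynomial

namespace AL2B

variable {X K : Type} [TopologicalSpace X] [Field K]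

/-- A representative that is exact for zero and one. -/
def rp (rep : K → X → ℂ) (α : K) : X → ℂ :=
  if α = 0 then fun _ => 0 else if α = 1 then fun _ => 1 else rep α

/-- The family of polynomials attached to `Q`. -/
def sp (rep : K → X → ℂ) (Q : K[X]) (x : X) : ℂ[X] :=
  ∑ i ∈ Finset.range (Q.natDegree + 1), monomial i (rp rep (Q.coeff i) x)

theorem rp_zero (rep : K → X → ℂ) : rp rep 0 = fun _ => 0 := if_pos rfl

theorem rp_one (rep : K → X → ℂ) : rp rep 1 = fun _ => 1 := by simp [rp]

theorem coeff_sp (rep : K → X → ℂ) (Q : K[X]) (x : X) (i : ℕ) :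
    (sp rep Q x).coeff i = rp rep (Q.coeff i) x := by
  simp only [sp, finsetSum_coeff, coeff_monomial, Finset.sum_ite_eq', Finset.mem_range]
  split_ifs with h
  · rfl
  · rw [coeff_eq_zero_of_natDegree_lt (by omega), rp_zero]

/-- The coefficients represent those of `Q` and are continuous at `x`. -/
def Rp (r : K →+* Germ (Ff X) ℂ) (x : X) (q : X → ℂ[X]) (Q : K[X]) : Prop :=
  ∀ i, Germ.coeRingHom (Ff X) (fun y => (q y).coeff i) = r (Q.coeff i) ∧
    ContinuousAt (fun y => (q y).coeff i) x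

variable {r : K →+* Germ (Ff X) ℂ} {x : X} {q q' : X → ℂ[X]} {Q Q' : K[X]}

theorem Rp.add (h : Rp r x q Q) (h' : Rp r x q' Q') : Rp r x (fun y => q y + q' y) (Q + Q') :=
  fun i => by
    simp only [coeff_add, map_add, ← (h i).1, ← (h' i).1]
    exact ⟨map_add _ (fun y => (q y).coeff i) (fun y => (q' y).coeff i), (h i).2.add (h' i).2⟩

theorem Rp.mul (h : Rp r x q Q) (h' : Rp r x q' Q') : Rp r x (fun y => q y * q' y) (Q * Q') :=
  fun i => by
    simp only [coeff_mul, map_sum, map_mul]
    refine ⟨?_, tendsto_finsetSum _ fun c _ => (h c.1).2.mul (h' c.2).2⟩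
    simp only [← fun i => (h i).1, ← fun i => (h' i).1, ← map_mul, ← map_sum]
    exact congrArg _ (funext fun y => by simp only [Finset.sum_apply, Pi.mul_apply])

theorem Rp.der (h : Rp r x q Q) : Rp r x (fun y => derivative (q y)) (derivative Q) := fun i => by
  simp only [coeff_derivative, map_mul]
  refine ⟨?_, (h _).2.mul continuousAt_const⟩
  rw [← (h _).1, ← Nat.cast_succ, ← Nat.cast_succ, map_natCast,
    ← map_natCast (Germ.coeRingHom (Ff X)), ← map_mul]
  rfl

theorem Rp.one (h : Rp r x q 1) : q x = 1 := by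
  ext i
  refine eq_of_Gn (f := fun y => (q y).coeff i) (g := fun _ => (1 : ℂ[X]).coeff i) (h i).2
    continuousAt_const
    (Gn_of_Ff (Germ.coe_eq.1 ((h i).1.trans ?_)) x)
  simp only [coeff_one]
  split_ifs
  · exact map_one r
  · exact map_zero r

end AL2B

open AL2B

theorem st_AL2 : St_AL2 := by
  intro n M K _ rep κ P U V hF hP hB
  obtain ⟨r, hr⟩ := hF.hom
  have h1 : ∀ α, Mer M (rp rep α) := fun α => by
    unfold rp
    split_ifs
    exacts [M86.mer_const 0, M86.mer_const 1, hF.mer α]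
  have h2 : ∀ α, (rp rep α : Germ (Ff M.X) ℂ) = r α := fun α => by
    unfold rp
    split_ifs with a b
    · rw [a]; exact (map_zero r).symm
    · rw [b]; exact (map_one r).symm
    · exact (hr α).symm
  have h3 : ∀ Q : K[X], ∃ W, Cothin M W ∧ ∀ i, ∀ x ∈ W, HolAt M (rp rep (Q.coeff i)) x := fun Q =>
    ⟨_, M86.cot_iInter fun i : Fin (Q.natDegree + 1) => M86.mer_reg (h1 (Q.coeff i)),
      fun i x hx => by
        by_cases h : i < Q.natDegree + 1
        · exact mem_iInter.1 hx ⟨i, h⟩
        · rw [coeff_eq_zero_of_natDegree_lt (by omega), rp_zero]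
          exact holAt_const 0⟩
  choose W w1 w2 using h3
  have h4 : ∀ Q i, (fun x => (sp rep Q x).coeff i) = rp rep (Q.coeff i) := fun Q i =>
    funext fun x => coeff_sp rep Q x i
  have h5 : ∀ Q, ∀ x ∈ W Q, Rp r x (sp rep Q) Q := fun Q x hx i => by
    rw [h4]
    exact ⟨h2 _, (w2 Q i x hx).cont⟩
  refine ⟨W P ∩ (W U ∩ W V), sp rep P, M86.cot_inter (w1 P) (M86.cot_inter (w1 U) (w1 V)),
    fun x => ?_, fun i => h4 P i ▸ h1 _, fun i x hx => h4 P i ▸ w2 P i x hx.1, fun x hx => ?_,
    fun i => h4 P i ▸ Germ.coe_eq.1 ((h2 _).trans (hr _))⟩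
  · have a : (sp rep P x).natDegree ≤ P.natDegree := natDegree_le_iff_coeff_eq_zero.2 fun i hi => by
      rw [coeff_sp, coeff_eq_zero_of_natDegree_lt hi, rp_zero]
    have b : (sp rep P x).coeff P.natDegree = 1 := by rw [coeff_sp, hP.coeff_natDegree, rp_one]
    exact ⟨monic_of_natDegree_le_of_coeff_eq_one _ a b,
      natDegree_eq_of_le_of_coeff_ne_zero a (b ▸ one_ne_zero)⟩
  · have := ((h5 U x hx.2.1).mul (h5 P x hx.1)).add ((h5 V x hx.2.2).mul (h5 P x hx.1).der)
    rw [hB] at this
    exact ⟨_, _, this.one⟩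

end Pool.Agent.Lib.RAE
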