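import Pool.Agent.Lib.RYE.Blue

/-! Project ra2, step E: the derivative of a meromorphic function along a meromorphic field. -/

open scoped Classical Topology ContDiff ComplexOrder Matrix
open Set MeasureTheory Complex Metric Filter

noncomputable section

namespace Pool.Agent.Lib.RAE

open Pool.Agent.Lib.SV (E nsq)
open Pool.Agent.Lib.HS32 Pool.Agent.Lib.PN Pool.Agent.Lib.RA

namespace DERB

variable {n : ℕ}

theorem hol_fd {A : E n → ℂ} {Ξ : E n → E n} {z : E n} (hA : HolN A z) (hΞ : HolN Ξ z) :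
    HolN (fun w => fderiv ℂ A w (Ξ w)) z := by
  filter_upwards [(ANB.analyticAt hA).fderiv.eventually_analyticAt, hΞ] with w h1 h2
  exact h1.differentiableAt.clm_apply h2

theorem gn_pull {M : Mf n} {e : M.Ch} {x : M.X} {p : E n → Prop} (hx : x ∈ e.source)
    (h : ∀ᶠ w in Gn (e x), p w) : ∀ᶠ y in Gn x, p (e y) := by
  rw [gn_ch hx]
  filter_upwards [h, Gn_of_nhds (e.open_target.mem_nhds (e.map_source hx))] with w h1 h2
  rwa [e.right_inv h2]

end DERB

open DERB in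
theorem st_DER (hSYC : St_SYC) (hMRG : St_MRG) : St_DER := by
  intro n k q M φ μ l b hw hμ hl hV g hg
  obtain ⟨s1, s2⟩ := hSYC n k q M φ μ l b
  obtain ⟨-, m2, m3, -⟩ := hMRG n M
  let g₁ : M.X → ℂ := fun y => fderiv ℂ (g ∘ (M.ch y).symm) (M.ch y y)
    (Classical.epsilon (Gd M φ μ l (M.ch y) (M.ch y y) b))
  have good : ∀ᶠ y in Ff M.X, HolAt M g y ∧ ∀ a, HolAt M (l a) y :=
    (m2 g hg).1.and (eventually_all.2 fun a => (m2 _ (hl a)).1)
  have key : ∀ e ∈ M.C, ∀ y ∈ e.source, (HolAt M g y ∧ ∀ a, HolAt M (l a) y) → ∀ v,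
      Gd M φ μ l e (e y) b v → g₁ y = fderiv ℂ (g ∘ e.symm) (e y) v := fun e he y hy h v hv => by
    obtain ⟨t1, t2⟩ := s2 _ (Mf.ch_mem y) e he y (Mf.mem_ch y) hy
    have t3 := t2 hw (fun i => KA.smAt_of_an (hμ i y)) h.2 v hv
    rw [t1 g h.1, s1 _ _ _ _ t3 (Classical.epsilon_spec ⟨_, t3⟩)]
  obtain ⟨g', h1, h2⟩ := m3 g₁ fun x => by
    have he := Mf.ch_mem x
    have hx := Mf.mem_ch x
    generalize M.ch x = e at he hx
    obtain ⟨δ, Ξ, d1, d2, d3, d4⟩ := hV e he _ (e.map_source hx)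
    obtain ⟨A, B, a1, a2, a3, a4⟩ := (m2 g hg).2 x
    have d5 : HolAt M (fun y => δ (e y)) x := holAt_comp_ch he hx d1
    have d6 : ∃ᶠ y in 𝓝 x, δ (e y) ≠ 0 := (fr_ch hx).2
      ((d3.and_eventually (e.open_target.mem_nhds (e.map_source hx))).mono fun w h => by
        rw [e.right_inv h.2]; exact h.1)
    refine ⟨fun y => B y * fderiv ℂ (A ∘ e.symm) (e y) (Ξ (e y)) -
        A y * fderiv ℂ (B ∘ e.symm) (e y) (Ξ (e y)), fun y => B y * B y * δ (e y),
      (a2.mul (holAt_comp_ch he hx (hol_fd (a1 e he hx) d2))).sub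
        (a1.mul (holAt_comp_ch he hx (hol_fd (a2 e he hx) d2))), (a2.mul a2).mul d5,
      (a2.mul a2).nz_mul d5 (a2.nz_mul a2 a3 a3) d6, ?_⟩
    filter_upwards [Gn_of_Ff good x, a2.ne_Gn a3, d5.ne_Gn d6, gn_pull hx d4, Gn_of_nhds
      (a2.near.and (a4.eventually_nhds.and (e.open_source.eventually_mem hx)))]
      with y c1 c2 c3 c4 ⟨c5, c6, c7⟩
    have q1 : A =ᶠ[𝓝 y] fun y => g y * B y := by
      filter_upwards [c6, c5.cont.eventually_ne c2] with y' p1 p2
      rw [p1 p2, div_mul_cancel₀ _ p2]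
    have q2 : fderiv ℂ (A ∘ e.symm) (e y) = fderiv ℂ (g ∘ e.symm * B ∘ e.symm) (e y) :=
      (KA.eq_chart q1 c7).fderiv_eq
    rw [key e he y c7 c1 _ c4, q2, fderiv_mul (c1.1 e he c7).self_of_nhds
      (c5 e he c7).self_of_nhds, q1.self_of_nhds]
    simp only [map_smul, _root_.add_apply, _root_.smul_apply,
      Function.comp, e.left_inv c7, smul_eq_mul]
    field_simp
    ring
  refine ⟨g', h1, fun e he z hz => ?_⟩
  filter_upwards [gn_of_ff hz (h2.and good), Gn_of_nhds (e.open_target.mem_nhds hz)]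
    with w c1 c2 v hv
  have := key e he _ (e.map_target c2) c1.2 v
  rw [e.right_inv c2] at this
  exact c1.1.trans (this hv)

end Pool.Agent.Lib.RAE
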