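import Pool.Agent.Lib.RYE.Blue
import Pool.Agent.Lib.RY.B_MER

/-! Project ra2, step E: the field of meromorphic functions. -/

open scoped Classical Topology
open Set Filter

set_option linter.unusedVariables false

noncomputable section

namespace Pool.Agent.Lib.RAE

open Pool.Agent.Lib.HS32 Pool.Agent.Lib.RA Pool.Agent.Lib.RA.M86

namespace KKB

variable {n : ℕ} (M : Mf n)

/-- The ring of meromorphic functions. -/
def ms : Subring (M.X → ℂ) where
  carrier := {g | Mer M g}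
  mul_mem' := fun a b => mer_mul a b
  one_mem' := mer_const 1
  add_mem' := fun a b => mer_add a b
  zero_mem' := mer_const 0
  neg_mem' := fun a => mer_neg a

/-- Its image in the ring of germs. -/
def gs : Subring (Germ (Ff M.X) ℂ) := (ms M).map (Germ.coeRingHom (Ff M.X))

variable {M}

theorem ne_of_not [M.Cpt] {g : M.X → ℂ} (h : Mer M g) (h0 : ¬∀ᶠ y in Ff M.X, g y = 0) :
    ∀ᶠ y in Ff M.X, g y ≠ 0 := Ff_of_Gn fun z => by
  obtain ⟨x, hx⟩ := not_forall.1 fun a => h0 (Ff_of_Gn a)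
  obtain ⟨O, δ, C, h1, h2, -, h3⟩ := mer_rep_ne h cot_univ (not_eventually.1 hx) z
  exact (dv_gn h2 h1).mono fun y hy => ne_of_le hy.2 (h3 y hy.1 hy.2).2.2

theorem isF [M.Cpt] : IsField (gs M) where
  exists_pair_ne := ⟨0, 1, zero_ne_one⟩
  mul_comm := mul_comm
  mul_inv_cancel := fun {a} ha => by
    obtain ⟨_, g, hg, rfl⟩ := a
    have h0 : ¬∀ᶠ y in Ff M.X, g y = 0 := fun h => ha (Subtype.ext (Germ.coe_eq.2 h))
    refine ⟨⟨_, fun y => (g y)⁻¹, mer_inv hg, rfl⟩, Subtype.ext (Germ.coe_eq.2 ?_)⟩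
    exact (ne_of_not hg h0).mono fun y hy => mul_inv_cancel₀ hy

end KKB

open KKB in
theorem st_KK : St_KK := by
  intro n M _
  let : Field (gs M) := isF.toField
  choose rep h1 h2 using fun α : gs M => Subring.mem_map.1 α.2
  have h3 : ∀ α, (rep α : Germ (Ff M.X) ℂ) = α.1 := h2
  let κ : ℂ →+* gs M := ((Germ.coeRingHom (Ff M.X)).comp (Pi.constRingHom M.X ℂ)).codRestrict _
    fun s => ⟨_, mer_const s, rfl⟩
  refine ⟨gs M, inferInstance, (RingHom.charZero_iff κ.injective).1 inferInstance, rep, κ, h1,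
    fun g hg => ⟨⟨_, g, hg, rfl⟩, Germ.coe_eq.1 (h3 _)⟩, fun α β x h => ?_, fun α β => ?_,
    fun α β => ?_, fun s => Germ.coe_eq.1 (h3 (κ s)), (gs M).subtype, fun α => (h3 α).symm⟩
  · refine Subtype.ext ?_
    rw [← h3, ← h3, Germ.coe_eq]
    exact (Ff_of_Gn (mer_zero (mer_sub (h1 α) (h1 β)) (h.mono fun y hy => sub_eq_zero.2 hy))).mono
      fun y hy => sub_eq_zero.1 hy
  · refine Germ.coe_eq.1 (?_ : (rep (α + β) : Germ (Ff M.X) ℂ) = (rep α + rep β : M.X → ℂ))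
    rw [Germ.coe_add, h3, h3, h3]
    rfl
  · refine Germ.coe_eq.1 (?_ : (rep (α * β) : Germ (Ff M.X) ℂ) = (rep α * rep β : M.X → ℂ))
    rw [Germ.coe_mul, h3, h3, h3]
    rfl

end Pool.Agent.Lib.RAE
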