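import Pool.Agent.Lib.RYE.Blue
import Pool.Agent.Lib.RA.T_AN

/-! Project ra2, step E: holomorphic linear systems. -/

open scoped Classical Topology Matrix
open Set Complex Metric Filter

set_option linter.unusedVariables false

noncomputable section

namespace Pool.Agent.Lib.RAE

open Pool.Agent.Lib.SV (E nsq)
open Pool.Agent.Lib.HS32 Pool.Agent.Lib.PN Pool.Agent.Lib.RA

namespace LINQB

variable {V m : Type} [NormedAddCommGroup V] [NormedSpace ℂ V] [Fintype m]
  {M : V → Matrix m m ℂ} {O : Set V}

theorem det (h : ∀ i j, DifferentiableOn ℂ (fun x => M x i j) O) :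
    DifferentiableOn ℂ (fun x => (M x).det) O := by
  simp only [Matrix.det_apply']
  refine DifferentiableOn.fun_sum fun σ _ => DifferentiableOn.const_mul ?_ _
  exact fun x hx => (HasFDerivWithinAt.finsetProd (g := fun i x => M x (σ i) i)
    fun i _ => (h _ _ x hx).hasFDerivWithinAt).differentiableWithinAt

theorem adj (h : ∀ i j, DifferentiableOn ℂ (fun x => M x i j) O) (i j : m) :
    DifferentiableOn ℂ (fun x => (M x).adjugate i j) O := by
  simp only [Matrix.adjugate_apply]
  refine det fun a b => ?_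
  simp only [Matrix.updateRow_apply]
  split_ifs
  exacts [differentiableOn_const _, h _ _]

theorem mv {p : Type} {A : V → Matrix p m ℂ} {w : V → m → ℂ}
    (h : ∀ i j, DifferentiableOn ℂ (fun x => A x i j) O) (hw : DifferentiableOn ℂ w O) (i : p) :
    DifferentiableOn ℂ (fun x => (A x *ᵥ w x) i) O :=
  DifferentiableOn.fun_sum fun j _ => (h i j).mul (differentiableOn_pi.1 hw j)

end LINQB

theorem st_LINQ : St_LINQ := by
  intro n p m _ _ c R A b z₀ hA hb hz h0 hs
  obtain ⟨g, hg⟩ := (Matrix.toLin' (A z₀)).exists_leftInverse_of_injective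
    (LinearMap.ker_eq_bot'.2 h0)
  set L := LinearMap.toMatrix' g with hL
  have h1 : L * A z₀ = 1 := by
    have := congrArg LinearMap.toMatrix' hg
    rwa [LinearMap.toMatrix'_comp, LinearMap.toMatrix'_toLin', LinearMap.toMatrix'_id] at this
  have h2 : ∀ i l, DifferentiableOn ℂ (fun z => (L * A z) i l) (ball c R) := fun i l =>
    DifferentiableOn.fun_sum fun j _ => (hA j l).const_mul _
  have h3 : DifferentiableOn ℂ (fun z => (L * A z).adjugate *ᵥ (L *ᵥ b z)) (ball c R) :=
    differentiableOn_pi.2 (LINQB.mv (LINQB.adj h2) (differentiableOn_pi.2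
      (LINQB.mv (A := fun _ => L) (fun _ _ => differentiableOn_const _) hb)))
  refine ⟨fun z => (L * A z).det, _, LINQB.det h2, h3, by simp [h1], fun z hz' =>
    ⟨funext fun i => ?_, fun hd w hw => ?_⟩⟩
  · refine (ANB.analyticOnNhd isOpen_ball (LINQB.mv hA h3 i)).eqOn_of_preconnected_of_eventuallyEq
      (ANB.analyticOnNhd isOpen_ball ((LINQB.det h2).mul (differentiableOn_pi.1 hb i)))
      (convex_ball c R).isPreconnected hz (hs.mono fun y hy => ?_) hz'
    obtain ⟨w, hw⟩ := hy
    simp only [← hw, Pi.mul_apply]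
    rw [Matrix.mulVec_mulVec w, Matrix.mulVec_mulVec w, Matrix.adjugate_mul, Matrix.smul_mulVec,
      Matrix.one_mulVec, Matrix.mulVec_smul]
    rfl
  · exact Matrix.eq_zero_of_mulVec_eq_zero hd (by
      rw [← Matrix.mulVec_mulVec, hw, Matrix.mulVec_zero])

end Pool.Agent.Lib.RAE
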