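import Pool.Agent.Lib.RYE.Blue

/-! Project ra2, step E: the linear system under a change of chart. -/

open scoped Classical Topology ContDiff ComplexOrder Matrix
open Set MeasureTheory Complex Metric Filter

set_option linter.unusedVariables false

noncomputable section

namespace Pool.Agent.Lib.RAE

open Pool.Agent.Lib.SV (E nsq)
open Pool.Agent.Lib.HS32 Pool.Agent.Lib.PN Pool.Agent.Lib.RA

namespace SYCB

open KA

variable {n k q : ℕ} {M : Mf n} {e e' : M.Ch} {x : M.X} {φ : M.Fam ℝ} {μ : Fin k → M.X → ℝ}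
  {l : Fin q → M.X → ℂ}

theorem dbv_ch {u : M.X → ℝ} (h : SmAt M u x) (he : e ∈ M.C) (he' : e' ∈ M.C)
    (hx : x ∈ e.source) (hx' : x ∈ e'.source) :
    dbv (u ∘ e'.symm) (e' x) = (M.J e e' x)ᴴ *ᵥ dbv (u ∘ e.symm) (e x) := by
  funext l
  have a := ((mCHN n _ _ (hol_tr he he' hx hx')).2.2.2.2.2.2.2.2.2.1 (M.lc u e)
    (by rw [tr_pt hx']; exact cd_diff (cd_ofReal (h e he hx))) l).2
  rw [tr_pt hx'] at a
  refine ((dzb_congr (comp_ev (fun y => (u y : ℂ)) hx hx')).trans a).trans ?_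
  exact Finset.sum_congr rfl fun i _ => mul_comm _ _

theorem fd_ch {g : M.X → ℂ} (h : HolAt M g x) (he : e ∈ M.C) (he' : e' ∈ M.C)
    (hx : x ∈ e.source) (hx' : x ∈ e'.source) (v : E n) :
    fderiv ℂ (g ∘ e'.symm) (e' x) v = fderiv ℂ (g ∘ e.symm) (e x) (M.J e e' x *ᵥ v) := by
  have h1 := hol_tr he he' hx hx'
  have h2 : DifferentiableAt ℂ (g ∘ e.symm) ((e ∘ e'.symm) (e' x)) := by
    rw [tr_pt hx']
    exact (h e he hx).self_of_nhds
  rw [(comp_ev g hx hx').fderiv_eq, fderiv_comp _ h2 h1.self_of_nhds, tr_pt hx',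
    ContinuousLinearMap.comp_apply, (mCHN n _ _ h1).2.2.2.2.2.1 v]
  rfl

theorem sy_ch (hφ : WtP M φ) (hμ : ∀ i, SmAt M (μ i) x) (hl : ∀ a, HolAt M (l a) x)
    (he : e ∈ M.C) (he' : e' ∈ M.C) (hx : x ∈ e.source) (hx' : x ∈ e'.source) (b : E q) (v : E n)
    (c : E k) : Sy M φ μ l e' (e' x) b v c ↔ Sy M φ μ l e (e x) b (M.J e e' x *ᵥ v) c := by
  have hJ : IsUnit (M.J e e' x)ᴴ := (Matrix.isUnit_iff_isUnit_det _).2
    (by rw [Matrix.det_conjTranspose]; exact (star_ne_zero.2 (det_J he he' hx hx')).isUnit)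
  have hi : Function.Injective fun w : E n => (M.J e e' x)ᴴ *ᵥ w :=
    Matrix.mulVec_injective_of_isUnit hJ
  have h1 : M.hw φ e' (e' x) *ᵥ v = (M.J e e' x)ᴴ *ᵥ (M.hw φ e (e x) *ᵥ (M.J e e' x *ᵥ v)) := by
    rw [hw_cmp hφ he he' hx hx', Matrix.mulVec_mulVec, Matrix.mulVec_mulVec]
  have h2 : ∑ i, c i • dbv (μ i ∘ e'.symm) (e' x) =
      (M.J e e' x)ᴴ *ᵥ ∑ i, c i • dbv (μ i ∘ e.symm) (e x) := by
    rw [Matrix.mulVec_sum]
    exact Finset.sum_congr rfl fun i _ => by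
      rw [dbv_ch (hμ i) he he' hx hx', Matrix.mulVec_smul]
  unfold Sy
  rw [h1, h2]
  refine and_congr hi.eq_iff (forall_congr' fun a => ?_)
  rw [fd_ch (hl a) he he' hx hx']

theorem uniq {b : E q} {z v v' : E n} (h : Gd M φ μ l e z b v) (h' : Gd M φ μ l e z b v') :
    v = v' := by
  obtain ⟨⟨c, h1, h2⟩, hu⟩ := h
  obtain ⟨⟨c', h1', h2'⟩, -⟩ := h'
  refine sub_eq_zero.1 (hu (v - v') (c - c') ⟨?_, fun a => ?_⟩).1
  · rw [Matrix.mulVec_sub, h1, h1', ← Finset.sum_sub_distrib]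
    exact Finset.sum_congr rfl fun i _ => by rw [Pi.sub_apply, sub_smul]
  · rw [map_sub, h2, h2', sub_self, Pi.zero_apply]

end SYCB

open SYCB KA in
theorem st_SYC : St_SYC := by
  intro n k q M φ μ l b
  refine ⟨fun e z v v' h h' => uniq h h', fun e he e' he' x hx hx' =>
    ⟨fun g hg v => fd_ch hg he he' hx hx' v, fun hφ hμ hl v h => ?_⟩⟩
  obtain ⟨⟨c, hc⟩, hu⟩ := h
  refine ⟨⟨c, (sy_ch hφ hμ hl he he' hx hx' b v c).1 hc⟩, fun v' c' h' => ?_⟩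
  have hJ : IsUnit (M.J e e' x).det := (det_J he he' hx hx').isUnit
  have hv : M.J e e' x *ᵥ ((M.J e e' x)⁻¹ *ᵥ v') = v' := by
    rw [Matrix.mulVec_mulVec, Matrix.mul_nonsing_inv _ hJ, Matrix.one_mulVec]
  rw [← hv] at h'
  obtain ⟨h1, h2⟩ := hu _ _ ((sy_ch hφ hμ hl he he' hx hx' 0 _ c').2 h')
  exact ⟨by rw [← hv, h1, Matrix.mulVec_zero], h2⟩

end Pool.Agent.Lib.RAE
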