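import Pool.Agent.Lib.RYE.Asm
import Pool.Agent.Lib.RYE.B_AL1
import Pool.Agent.Lib.RYE.B_AL2
import Pool.Agent.Lib.RYE.B_AL3
import Pool.Agent.Lib.RYE.B_BXS
import Pool.Agent.Lib.RYE.B_DER
import Pool.Agent.Lib.RYE.B_DK27
import Pool.Agent.Lib.RYE.B_KK
import Pool.Agent.Lib.RYE.B_LINQ
import Pool.Agent.Lib.RYE.B_LOCQ
import Pool.Agent.Lib.RYE.B_MRG
import Pool.Agent.Lib.RYE.B_SYC
import Pool.Agent.Lib.RYE.B_VEC
import Pool.Agent.Lib.RYE.B_WDEP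
import Pool.Agent.Lib.RYB.All

/-! Project ra2, step E: algebraic equations. -/

namespace Pool.Agent.Lib.RAE

open Pool.Agent.Lib.RA

theorem eCRAM : St_CRAM :=
  st_CRAM st_KK st_BXS (st_VEC (st_LOCQ bPBX) st_LINQ st_MRG st_SYC) (st_DER st_SYC st_MRG) st_DK27
    st_WDEP st_AL1 st_AL2 st_AL3

end Pool.Agent.Lib.RAE
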