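import Pool.Agent.Lib.RYE.Blue
import Pool.Agent.Lib.HS32.MAll

/-! Project ra2, step E: the bound on one branch. -/

open scoped Topology ComplexOrder Matrix
open Set MeasureTheory Metric Filter

noncomputable section

namespace Pool.Agent.Lib.RAE

open Pool.Agent.Lib.SV (E)
open Pool.Agent.Lib.HS32 Pool.Agent.Lib.RA

namespace CACB

theorem sx_cont {k j : ℕ} : Continuous (sx : E (k + j) → E j) :=
  continuous_pi fun _ => continuous_apply _

end CACB

open CACB in
theorem st_CAC (ATK : St_ATK) (CLO : St_CLO) (CUT : St_CUT) (TOPK : St_TOPK) (PAK : St_PAK) :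
    St_CAC := by
  intro q k j N M _ G η Q U δ' V₀ Λ₀ H₀ B κ _ ψ v d hG hη hL hB hQ hψ hv
  have ψ1 : ∀ b s, 0 ≤ ψ b s ∧ ψ b s ≤ 1 ∧ (ψ b s ≠ 0 → ‖s‖ ≤ δ' / 2) := fun b s =>
    ⟨(hψ.1 b).2.2.2 s, (Finset.single_le_sum (f := fun b => ψ b s)
      (fun b _ => (hψ.1 b).2.2.2 s) (Finset.mem_univ b)).trans (hψ.2 s), fun h =>
      (mem_ball_zero_iff.1 ((hψ.1 b).2.2.1 (subset_tsupport _ h))).le⟩
  have t1 : ∀ b, M.Ten (M.hs (v b)) := fun b => ((mHES _ M).1 _ (hv b).2.1).toTen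
  have t2 : ∀ b, M.Ten (M.hs (v b) + d b • G) := fun b => (t1 b).add (hG.toTen.smul _)
  have t3 : ∀ b x, At M x fun e z => ((M.hs (v b) + d b • G) e z).PosSemidef := fun b x e he hx =>
    by simpa using (hv b).2.2 e he _ (e.map_source hx)
  have key : ∀ ε > 0, ∑ b, (d b)⁻¹ * ∫ x in B, ψ b (sx (H₀ x)) *
      pa M G (sH M G H₀) (M.hs (v b) + d b • G) x ∂M.mu G ≤
      q * (N * V₀) + (∑ b, (d b)⁻¹) * ε := by
    intro ε hε
    obtain ⟨C, hC, cut⟩ := CUT
    obtain ⟨Λ, h1, h2, h3⟩ := ((eventually_all.2 fun b => CLO q k j N M G η Q U δ' V₀ C ε (v b) hG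
      hη hL hC hε (hv b).2.1).and ((eventually_gt_atTop 0).and (eventually_ge_atTop Λ₀))).exists
    obtain ⟨θ, g, hc⟩ := cut Λ h2
    obtain ⟨m, O, H, χ, F, hA⟩ := hL.atl (2 * Λ)
    obtain ⟨a1, -, a3, a4, -⟩ := ATK _ k j m N M G Q _ _ O H χ hG.toMet hA.atl
    have tp := fun i => (TOPK q k j M G (O i) (H i) hG (hA.atl.op i)
      fun x hx => (hA.atl.q i x hx).2.1).2
    have c1 : ∀ b i, ∀ x ∈ O i,
        ContinuousAt (fun x => ψ b (sx (H i x)) * θ (U (H i x))) x := fun b i x hx => by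
      have h := (hA.atl.q i x hx).2
      exact ((hψ.1 b).1.continuous.continuousAt.comp (sx_cont.continuousAt.comp h.1.cont)).mul
        (hc.st.continuous.continuousAt.comp
          (ContinuousAt.comp (f := H i) (hL.sm _ h.2).continuousAt h.1.cont))
    have c2 : ∀ b i, ∀ x ∈ O i, ContinuousAt
        (fun x => ψ b (sx (H i x)) * θ (U (H i x)) * (q * aH M G (H i) x)) x := fun b i x hx =>
      (c1 b i x hx).mul (continuousAt_const.mul (tp i x hx).1)
    have s1 : ∀ b, ∫ x in B, ψ b (sx (H₀ x)) * pa M G (sH M G H₀) (M.hs (v b) + d b • G) x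
        ∂M.mu G ≤ ε + d b * ∑ i, ∫ x, χ i x *
          (ψ b (sx (H i x)) * θ (U (H i x)) * (q * aH M G (H i) x)) ∂M.mu G := by
      intro b
      refine (a4 (fun i x => ψ b (sx (H i x)) * θ (U (H i x)) *
        pa M G (sH M G (H i)) (M.hs (v b) + d b • G) x) H₀ _ B hB (fun i x hx =>
          ⟨(c1 b i x hx).mul ((tp i x hx).2.2.2.2.2.2.2.1 _ (t2 b)), mul_nonneg (mul_nonneg
            (ψ1 b _).1 (hc.bd _).1) ((tp i x hx).2.2.2.2.1 _ (t3 b x))⟩) fun x hx => ?_).trans ?_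
      · have h0 := (TOPK q k j M G {y | HolAt M H₀ y} H₀ hG
          (isOpen_iff_mem_nhds.2 fun y hy => KA.holAt_ev hy) fun _ h => h).2 x
          (hL.hs _ _ (hQ x hx).1).1
        refine ⟨mul_nonneg (ψ1 b _).1 (h0.2.2.2.2.1 _ (t3 b x)), fun h => ⟨(hQ x hx).1,
          ⟨(ψ1 b _).2.2 (left_ne_zero_of_mul h), by linarith [(hQ x hx).2]⟩, fun i hi hT => ?_⟩⟩
        obtain ⟨-, e1, -, e2⟩ := (tp i x hi).2.2.2.2.2.2.2.2.2 H₀ hT
        obtain ⟨a, ha⟩ := hT
        have e3 : U (H₀ x) = U (H i x) := by rw [ha.self_of_nhds, hL.inv]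
        rw [← e2.self_of_nhds, ← e3, hc.one _ ((hQ x hx).2.trans h3), mul_one,
          ((PAK _ M G _ x).1 0 _ 0).2.2.2 _ e1]
      · rw [Finset.mul_sum]
        refine le_trans (le_of_eq ?_) (add_le_add
          (h1 b m O H χ F θ g (ψ b) hA hc (hψ.1 b).1 (ψ1 b)) le_rfl)
        rw [← Finset.sum_add_distrib]
        refine Finset.sum_congr rfl fun i _ => ?_
        rw [← integral_const_mul, ← integral_add (a1 i (fun x => ψ b (sx (H i x)) * θ (U (H i x)) *
          pa M G (sH M G (H i)) (M.hs (v b)) x) fun x hx => (c1 b i x hx).mul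
          ((tp i x hx).2.2.2.2.2.2.2.1 _ (t1 b))) ((a1 i _ (c2 b i)).const_mul _)]
        refine integral_congr_ae (.of_forall fun x => ?_)
        by_cases hx : x ∈ O i
        · simp only
          rw [((PAK _ M G _ x).1 _ _ 0).1, ((PAK _ M G _ x).1 0 _ _).2.1, (tp i x hx).2.2.2.1]
          ring
        · have : χ i x = 0 := by
            by_contra h
            exact hx (hA.atl.supp i (subset_tsupport _ h))
          simp [this]
    have s2 : ∑ b, ∑ i, ∫ x, χ i x * (ψ b (sx (H i x)) * θ (U (H i x)) * (q * aH M G (H i) x))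
        ∂M.mu G ≤ q * (N * V₀) := by
      rw [Finset.sum_comm]
      have h4 := a3 (fun i x => ∑ b, ψ b (sx (H i x)) * θ (U (H i x)) * (q * aH M G (H i) x))
        (fun x => q * F x) (continuous_const.mul hA.cont)
        (fun x => mul_nonneg (Nat.cast_nonneg _) (hA.nn x)) fun i x hx =>
        ⟨tendsto_finsetSum _ fun b _ => c2 b i x hx, by
          rw [← Finset.sum_mul, ← Finset.sum_mul]
          have n1 : 0 ≤ (q : ℝ) * aH M G (H i) x := mul_nonneg (Nat.cast_nonneg _) (tp i x hx).2.1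
          by_cases h5 : (∑ b, ψ b (sx (H i x))) * θ (U (H i x)) = 0
          · rw [h5, zero_mul]
            exact mul_nonneg (Nat.cast_nonneg _) (hA.nn x)
          · obtain ⟨b, -, hb⟩ := Finset.exists_ne_zero_of_sum_ne_zero (left_ne_zero_of_mul h5)
            have h6 := hA.le _ x (hA.atl.q i x hx).1 ((ψ1 b _).2.2 hb)
              (not_lt.1 fun h => right_ne_zero_of_mul h5 (hc.zero _ h.le).1)
            exact (mul_le_of_le_one_left n1 (mul_le_one₀ (hψ.2 _) (hc.bd _).1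
              (hc.bd _).2.1)).trans (mul_le_mul_of_nonneg_left h6 (Nat.cast_nonneg _))⟩
      refine le_trans (le_of_eq (Finset.sum_congr rfl fun i _ => ?_)) (h4.trans ?_)
      · rw [← integral_finsetSum _ fun b _ => a1 i _ (c2 b i)]
        simp only [Finset.mul_sum]
      · rw [integral_const_mul, mul_left_comm]
        exact mul_le_mul_of_nonneg_left
          (mul_le_mul_of_nonneg_left hA.int (Nat.cast_nonneg _)) (Nat.cast_nonneg _)
    refine (Finset.sum_le_sum fun b _ =>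
      mul_le_mul_of_nonneg_left (s1 b) (inv_pos.2 (hv b).1).le).trans ?_
    rw [Finset.sum_mul, add_comm ((q : ℝ) * (N * V₀))]
    refine le_trans (le_of_eq ?_) (add_le_add le_rfl s2)
    rw [← Finset.sum_add_distrib]
    refine Finset.sum_congr rfl fun b _ => ?_
    rw [mul_add, ← mul_assoc, inv_mul_cancel₀ (hv b).1.ne', one_mul]
  have h0 : 0 ≤ ∑ b, (d b)⁻¹ := Finset.sum_nonneg fun b _ => (inv_pos.2 (hv b).1).le
  refine le_of_forall_pos_le_add fun ε hε => (key (ε / (∑ b, (d b)⁻¹ + 1)) (by positivity)).trans ?_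
  refine add_le_add le_rfl ?_
  rw [← mul_div_assoc, div_le_iff₀ (by positivity)]
  nlinarith

end Pool.Agent.Lib.RAE
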