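import Pool.Agent.Lib.RYE.Blue
import Pool.Agent.Lib.RY.Top
import Pool.Agent.Lib.RY.B_ATL0

/-! The system of admissible branches. -/

open scoped Classical Topology ContDiff ComplexOrder Matrix
open Set MeasureTheory Complex Metric Filter

set_option linter.unusedVariables false

noncomputable section

namespace Pool.Agent.Lib.RAE

open Pool.Agent.Lib.SV (E nsq)
open Pool.Agent.Lib.HS32 Pool.Agent.Lib.PN Pool.Agent.Lib.RA

namespace LSYSB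

variable {n k j : ℕ}

theorem cd_lin (b : Fin k → ℝ) : ContDiff ℝ ∞ fun t : E (k + j) => b ⬝ᵥ r2 (fx t) :=
  ContDiff.sum fun i _ => contDiff_const.mul (contDiff_const.mul
    (reCLM.contDiff.comp (contDiff_apply ℝ ℂ (Fin.castAdd j i))))

theorem r2_tr (t : E (k + j)) (a : Fin k → ℝ) : r2 (fx (t + I • io j a)) = r2 (fx t) := by
  funext i; simp [r2, fx, io, cx]

theorem cont_ap : Continuous fun s : E j => (Fin.append (0 : E k) s : E (k + j)) :=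
  continuous_pi fun i => Fin.addCases (fun i => by simpa using continuous_const)
    (fun l => by simpa using continuous_apply l) i

theorem level {M : Mf n} {φ : M.Fam ℝ} {ρ : (Fin k → ℝ) → M.X → ℝ}
    {Φ : E (k + j) × E (k + j) → ℂ} {δ δ' c₁ : ℝ} {O : Set M.X} {H₀ : M.X → E (k + j)}
    {ψ : E (k + j) → ℝ} (h : Phh M φ ρ Φ δ O H₀ ψ δ' c₁) (Λ : ℝ) :
    ∃ L, ∀ t, ‖sx t‖ ≤ δ' → uf ψ (mu0 Φ 0) t ≤ Λ → ‖r2 (fx t)‖ ≤ L := by
  have d0 := h.d0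
  have d1 := h.d1
  obtain ⟨B, hB⟩ := (isCompact_closedBall (0 : E j) δ').exists_bound_of_continuousOn
    (f := fun s => ψ (Fin.append 0 s)) fun s hs => (ContinuousAt.comp (h.an _ (by
      rw [show sx (Fin.append (0 : E k) s) = s from funext fun l => by simp [sx]]
      linarith [mem_closedBall_zero_iff.1 hs])).continuousAt
        cont_ap.continuousAt).continuousWithinAt
  refine ⟨max δ ((Λ + B) / c₁), fun t h1 h2 => ?_⟩
  rcases le_total δ ‖r2 (fx t)‖ with h3 | h3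
  · refine le_max_of_le_right ((le_div_iff₀' h.c0).2 ?_)
    have h4 := h.coe t h1 h3
    have h5 := (abs_le.1 (hB _ (mem_closedBall_zero_iff.2 h1))).1
    rw [uf] at h2
    linarith
  · exact le_max_of_le_left h3

end LSYSB

theorem st_LSYS (hPROP : St_PROP) (hEXTQ : St_EXTQ) (hFINE : St_FINE) (hLOW : St_LOW)
    (hMASS : St_MASS) (hMIN : RA.St_MIN) : St_LSYS := by
  intro n k j N M _ G φ μ V ρ Φ δ c O H₀ ψ δ' c₁ h hN
  have d0 := h.ph.d0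
  have d1 := h.ph.d1
  obtain ⟨V₀, hV⟩ := hMASS n k j M G (M.hw φ) c h.su.kae (h.su.wt.clo) h.tv.c0
  refine ⟨V₀, d0, fun t ht => (h.ph.an t (by linarith)).contDiffAt.sub (LSYSB.cd_lin _).contDiffAt,
    fun t a => by rw [uf, uf, h.ph.inv, LSYSB.r2_tr], fun H x q =>
      ⟨q.iso.1, ((hPROP n k j M G φ μ V ρ Φ δ c O H₀ ψ δ' c₁ h).2 H x q).2.2.2⟩, fun Λ => ?_⟩
  obtain ⟨L, hL⟩ := LSYSB.level h.ph Λ
  obtain ⟨m, O', H, χ, hA⟩ := st_ATL0 n k j N M (AdmE M φ ρ ψ δ)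
    {t | ‖sx t‖ ≤ δ' / 2 ∧ uf ψ (mu0 Φ 0) t ≤ Λ} {t | ‖sx t‖ ≤ δ'} _ h.su.den
    (fun H x q => q.iso.1)
    (fun x => by
      obtain ⟨O', a1, a2, a3, a4⟩ := hEXTQ n k j M G φ μ V ρ Φ δ c O H₀ ψ δ' c₁ h L x
      exact ⟨O', a1, a2, a3, fun y hy H q hK =>
        a4 y hy H q (hL _ (by linarith [hK.1]) hK.2) hK.1⟩)
    (hFINE n k j N M G φ μ V ρ Φ δ c O H₀ ψ δ' c₁ h hN)
  obtain ⟨ε, hε, hlow⟩ := hLOW n k j M G φ μ V ρ Φ δ c O H₀ ψ δ' c₁ h L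
  obtain ⟨P, ξ, hP⟩ := hMIN n k j M φ _ μ V ρ (mu0 Φ 0) ε h.su.toPot h.fl hε
  obtain ⟨F, f1, f2, f3, f4⟩ := hV P hP.sm hP.psd
  exact ⟨m, O', H, χ, F, hA, f1, f2, f3, fun H' x q a1 a2 => f4 H' x q.iso.1
    (hlow P ξ hP H' x q (hL _ (by linarith) a2) (by linarith))⟩

end Pool.Agent.Lib.RAE
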