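import Pool.Agent.Lib.RYE.Blue

/-! Project ra2, step E: the mass bound. -/

open scoped Classical Topology ContDiff ComplexOrder Matrix
open Set MeasureTheory Complex Metric Filter

noncomputable section

namespace Pool.Agent.Lib.RAE

open Pool.Agent.Lib.SV (E nsq)
open Pool.Agent.Lib.HS32 Pool.Agent.Lib.PN Pool.Agent.Lib.RA

namespace MASS

variable {n k j : ℕ}

theorem psd_ps : (ps k j).PosSemidef :=
  Matrix.PosSemidef.diagonal fun i => by
    simp only [Pi.zero_apply]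
    split_ifs
    exacts [le_rfl, zero_le_one]

theorem rank_ps : (ps k j).rank = j := by
  rw [ps, Matrix.rank_diagonal, Fintype.card_subtype, Finset.card_filter, Fin.sum_univ_add]
  simp

theorem key {G B S : Mat n} {c : ℝ} (hc : 0 < c) (hG : G.PosDef) (hB : B.PosSemidef)
    (hj : B.rank ≤ j) (h : (S - (c : ℂ) • B).PosSemidef) :
    RA28.topA j G B ≤ c⁻¹ ^ n * ((c • G + S).det / G.det).re := by
  have hc' : (c : ℂ) ≠ 0 := ofReal_ne_zero.2 hc.ne'
  have h1 : ((c⁻¹ : ℝ) : ℂ) • S - B = ((c⁻¹ : ℝ) : ℂ) • (S - (c : ℂ) • B) := by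
    rw [smul_sub, smul_smul, ofReal_inv, inv_mul_cancel₀ hc', one_smul]
  have h2 : G + ((c⁻¹ : ℝ) : ℂ) • S = ((c⁻¹ : ℝ) : ℂ) • (c • G + S) := by
    rw [smul_add, ← Complex.coe_smul c G, smul_smul, ofReal_inv, inv_mul_cancel₀ hc', one_smul]
  have h3 := (RA28.top hG hB hj).mono (((c⁻¹ : ℝ) : ℂ) • S) (by
    rw [h1]
    exact h.smul (zero_le_real.2 (inv_pos.2 hc).le))
  rwa [h2, Matrix.det_smul, Fintype.card_fin, mul_div_assoc, ← ofReal_pow, re_ofReal_mul] at h3

end MASS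

open MASS in
theorem st_MASS : St_MASS := by
  intro n k j M _ G η c hG hη hc
  have hT : M.Clo (c • G + η) := (hG.toClo.smul c).add hη
  refine ⟨c⁻¹ ^ n * ∫ x, M.dq G (c • G + η) x ∂M.mu G, fun P hP hle =>
    ⟨fun x => c⁻¹ ^ n * M.dq G (c • G + η + M.hs P) x, ?_, fun x => ?_, ?_, fun H y _ h => ?_⟩⟩
  · exact continuous_const.mul (((mINV n M G hG.toMet).1 _
      (hT.add ((mHES n M).1 P hP)).toTen).2.2.2.1).continuous
  · have h0 : (0 : Mat n).rank ≤ 0 := Matrix.rank_zero.le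
    have h1 := key (S := M.ev (η + M.hs P) x) hc (hG.pos.ch x) Matrix.PosSemidef.zero h0 (by
      rw [smul_zero]
      exact hle.ch x)
    rw [add_assoc]
    exact (RA28.top (hG.pos.ch x) Matrix.PosSemidef.zero h0).nonneg.trans h1
  · rw [integral_const_mul, mCOH n M G _ P hG.toMet hT hP]
  · rw [add_assoc]
    refine key (S := M.ev (η + M.hs P) y) hc (hG.pos.ch y)
      (psd_ps.conjTranspose_mul_mul_same _) ?_ (h _ (Mf.ch_mem y) (Mf.mem_ch y))
    exact (Matrix.rank_mul_le_left _ _).trans ((Matrix.rank_mul_le_right _ _).trans rank_ps.le)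

end Pool.Agent.Lib.RAE
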