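import Pool.Agent.Lib.RYE.Asm
import Pool.Agent.Lib.RYE.B_ATK
import Pool.Agent.Lib.RYE.B_CAC
import Pool.Agent.Lib.RYE.B_CLO
import Pool.Agent.Lib.RYE.B_CUT
import Pool.Agent.Lib.RYE.B_ENE
import Pool.Agent.Lib.RYE.B_EXTQ
import Pool.Agent.Lib.RYE.B_FINE
import Pool.Agent.Lib.RYE.B_LOW
import Pool.Agent.Lib.RYE.B_LSYS
import Pool.Agent.Lib.RYE.B_MASS
import Pool.Agent.Lib.RYE.B_PAK
import Pool.Agent.Lib.RYE.B_PROP
import Pool.Agent.Lib.RYE.B_TOPK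
import Pool.Agent.Lib.RY.B_MIN

/-! Project ra2, step E: the zero estimate. -/

namespace Pool.Agent.Lib.RAE

open Pool.Agent.Lib.RA

theorem eLSYS : St_LSYS :=
  st_LSYS st_PROP (st_EXTQ st_PROP) (st_FINE st_PROP) st_LOW st_MASS (st_MIN st_LEV)

theorem eCAC : St_CAC :=
  st_CAC st_ATK (st_CLO st_GIBP st_TOPK st_PAK st_ATK (st_ENE st_TOPK st_PAK st_ATK)) st_CUT
    st_TOPK st_PAK

theorem eE : St_E := st_E eLSYS eCAC (st_PLQ (st_TOP st_CH2) st_CH2)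

end Pool.Agent.Lib.RAE
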