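import Pool.Agent.Lib.RYE.Blue
import Pool.Agent.Lib.RY.B_TOP
import Pool.Agent.Lib.RY.B_CH2
import Pool.Agent.Lib.RY.B_PLQ

/-! Project ra2, step E: the density of a branch. -/

open scoped Classical Topology ContDiff ComplexOrder Matrix
open Set MeasureTheory Complex Metric Filter

noncomputable section

namespace Pool.Agent.Lib.RAE

open Pool.Agent.Lib.SV (E)
open Pool.Agent.Lib.HS32 Pool.Agent.Lib.RA KA PLQB

namespace TOPKB

variable {n k j : ℕ}

theorem quo_nn {G A T : Mat n} (hG : G.PosDef) (hA : A.PosSemidef) (hT : T.PosSemidef) :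
    0 ≤ ((A * T).trace / G.det).re :=
  (Complex.le_def.1 (div_nonneg (HS76.tr_mul_nonneg hA hT) hG.det_pos.le)).1

/-- the last coordinates as a linear map -/
def sxL (k j : ℕ) : E (k + j) →L[ℝ] E j :=
  ContinuousLinearMap.pi fun l => ContinuousLinearMap.proj (Fin.natAdd k l)

theorem dz_sx {g : E j → ℂ} {t : E (k + j)} (hg : DifferentiableAt ℝ g (sx t)) :
    (fun a => dz a (g ∘ sx) t) ᵥ* ps k j = fun a => dz a (g ∘ sx) t := by
  have h : ∀ (i : Fin k) (c : ℂ), fderiv ℝ (g ∘ sx) t (Pi.single (Fin.castAdd j i) c) = 0 := by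
    intro i c
    have e : sxL k j (Pi.single (Fin.castAdd j i) c) = 0 := by
      funext l
      have : Fin.natAdd k l ≠ Fin.castAdd j i := Fin.ne_of_val_ne (by simp; omega)
      simp [sxL, this]
    rw [(hg.hasFDerivAt.comp t (sxL k j).hasFDerivAt).fderiv, ContinuousLinearMap.comp_apply, e,
      map_zero]
  funext a
  rw [ps, Matrix.vecMul_diagonal]
  refine Fin.addCases (fun i => ?_) (fun i => ?_) a
  · simp [dz, h]
  · simp

theorem tr_zero {S : Mat n} {L : Matrix (Fin (k + j)) (Fin n) ℂ} (h : Lᴴ * ps k j * L * S = 0)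
    {d : E (k + j)} (hd : d ᵥ* ps k j = d) (a : E n) :
    (S * Matrix.vecMulVec a (d ᵥ* L)).trace = 0 := by
  have e : ps k j * L * S = 0 := by
    rw [← Matrix.conjTranspose_mul_self_mul_eq_zero, Matrix.conjTranspose_mul, ps_psd.1.eq,
      ← Matrix.mul_assoc, Matrix.mul_assoc Lᴴ, ps_sq, h]
  rw [Matrix.mul_vecMulVec, Matrix.trace_vecMulVec, dotProduct_comm, ← hd, Matrix.vecMul_vecMul,
    Matrix.dotProduct_mulVec, Matrix.vecMul_vecMul, e, Matrix.vecMul_zero, zero_dotProduct]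

end TOPKB

open TOPKB in
theorem st_TOPK : St_TOPK := by
  intro q k j M G O H hG hO hH
  obtain ⟨t1, t2, t3, t4⟩ := st_TOP st_CH2 (q + j) (k + j) j M G O hG hO
  obtain ⟨p1, p2⟩ := t2 H (ps k j) hH ps_psd
  obtain ⟨d1, -, d2⟩ := t1 _ p1 fun x hx e he hs => ⟨(p2 x hx e he hs).1.1, (p2 x hx e he hs).2.1⟩
  refine ⟨d1, fun x hx => ?_⟩
  have tp : At M x fun e z => RA28.Top j (G e z) (pb M H (ps k j) e z) := fun e he hs =>
    RA28.top (hG.pos.at he hs) (p2 x hx e he hs).1 ((p2 x hx e he hs).2.2.trans ps_rank.le)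
  have t := at_ch tp
  have g0 : (M.ev G x).PosDef := at_ch (at_of_all hG.pos x)
  have nn : ∀ T : Mat (q + j), T.PosSemidef →
      0 ≤ ((M.ev (sH M G H) x * T).trace / (M.ev G x).det).re := fun T hT => quo_nn g0 t.psd hT
  have eq : pa M G (sH M G H) G x = q * aH M G H x := by
    have := t.tr
    rw [Nat.add_sub_cancel] at this
    change (_ / _ : ℂ).re = q * (_ / _ : ℂ).re
    rw [← re_ofReal_mul, ← mul_div_assoc]
    exact congrArg (fun w : ℂ => (w / (M.ev G x).det).re) this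
  refine ⟨smAt_cont (d2 x hx).1, t.nonneg, fun e he hs => (tp e he hs).psd, eq,
    fun T hT => nn _ (at_ch hT), fun T C hT => ?_, fun g u hg hu => ?_, fun T hT => ?_,
    fun u w h => ?_, fun H' ⟨a, ha⟩ => ?_⟩
  · have := nn _ (at_ch hT)
    rw [Matrix.mul_sub, Matrix.trace_sub, Matrix.mul_smul, Matrix.trace_smul, sub_div, sub_re,
      smul_div_assoc, smul_re, smul_eq_mul, sub_nonneg] at this
    exact eq ▸ this
  · have h0 := Mf.mem_ch (M := M) x
    have h1 : (H ∘ (M.ch x).symm) (M.ch x x) = H x := congrArg H ((M.ch x).left_inv h0)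
    have h2 : DifferentiableAt ℝ (fun s => (g s : ℂ)) (sx (H x)) := cd_diff (cd_ofReal hg)
    have h3 := (st_CH2 _ _ _ _ (at_ch (hH x hx))).2.2.2.2.2.1 ((fun s => (g s : ℂ)) ∘ sx)
      (by rw [h1]; exact h2.comp _ (sxL k j).differentiableAt)
    have h4 : M.ev (M.ds u fun y => g (sx (H y))) x = Matrix.vecMulVec
        (fun i => dzb i (M.lc u (M.ch x)) (M.ch x x))
        ((fun a => dz a ((fun s => (g s : ℂ)) ∘ sx) (H x)) ᵥ* jr (H ∘ (M.ch x).symm) (M.ch x x)) := by
      ext i l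
      rw [← h1]
      exact congrArg (_ * ·) (h3 l).1
    rw [pa, h4, show (M.ev (sH M G H) x * _).trace = 0 from tr_zero t.bs (dz_sx h2) _, zero_div,
      zero_re]
  · exact smAt_cont (t4 _ T d1 ⟨fun y _ => at_of_all hT.sm y,
      fun e he e' he' y b c _ => hT.cmp e he e' he' y b c⟩ x hx).1
  · obtain ⟨s1, s2⟩ := t3 u fun y hy => (h y hy).1
    exact ⟨smAt_cont (t4 _ _ d1 s1 x hx).1, smAt_cont (t4 _ _ d1 (s2 w fun y hy => (h y hy).2) x hx).1⟩
  · have e1 : EqAt M (pb M H (ps k j)) (pb M H' (ps k j)) x := fun e he hs => by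
      have : fderiv ℂ (H' ∘ e.symm) (e x) = fderiv ℂ (H ∘ e.symm) (e x) := by
        rw [(eq_chart ha hs).fderiv_eq]
        exact fderiv_add_const _
      simp only [pb, jr, this]
    refine ⟨holAt_congr (fun e he hs => (hH x hx e he hs).mono fun w hw => hw.add_const _) ha,
      fun e he hs => congrArg (RA28.topS j _) (e1 e he hs), congrArg (RA28.topA j _) (at_ch e1),
      ha.mono fun y hy => funext fun l => ?_⟩
    simp [hy, sx, io]

end Pool.Agent.Lib.RAE
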