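import Pool.Agent.Lib.RY.Gen
import Pool.Agent.Lib.RY.K_At
import Pool.Agent.Lib.RY.T_VZ
import Pool.Agent.Lib.RA.T_WRON

/-! Project ra2, step E: the statements. -/

open scoped Classical Topology ContDiff ComplexOrder Matrix
open Set MeasureTheory Complex Metric Filter

set_option linter.unusedVariables false

noncomputable section

namespace Pool.Agent.Lib.RAE

open Pool.Agent.Lib.SV (E nsq)
open Pool.Agent.Lib.HS32 Pool.Agent.Lib.PN Pool.Agent.Lib.RA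

section defs

variable {n k j q : ℕ}

/-- The potential minus its linear part. -/
def uf (ψ : E (k + j) → ℝ) (b : Fin k → ℝ) (t : E (k + j)) : ℝ := ψ t - b ⬝ᵥ r2 (fx t)

/-- A derivative along one of the first coordinates. -/
def pd (g : E (q + j) → ℂ) (b : Fin q) (z : E (q + j)) : ℂ :=
  fderiv ℂ g z (Pi.single (Fin.castAdd j b) 1)

variable (M : Mf n)

/-- The density attached to the last coordinates of a branch. -/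
def sH (G : M.Fam (Mat n)) (H : M.X → E (k + j)) : M.Fam (Mat n) := tA M j G (pb M H (ps k j))

/-- The mass attached to the last coordinates of a branch. -/
def aH (G : M.Fam (Mat n)) (H : M.X → E (k + j)) : M.X → ℝ := tD M j G (pb M H (ps k j))

/-- The data of step E. -/
structure Es (G : M.Fam (Mat n)) (φ : M.Fam ℝ) (μ : Fin k → M.X → ℝ) (V : M.Cov)
    (ρ : (Fin k → ℝ) → M.X → ℝ) (Φ : E (k + j) × E (k + j) → ℂ) (δ c : ℝ) (O : Set M.X)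
    (H₀ : M.X → E (k + j)) (ψ : E (k + j) → ℝ) (δ' c₁ : ℝ) : Prop where
  su : Su M G φ (k + j)
  fl : Flow M j φ μ V ρ
  tv : Tv k j Φ δ c
  ph : Phh M φ ρ Φ δ O H₀ ψ δ' c₁

/-- An atlas of branches up to the level `Λ`, with a bound for the masses. -/
structure Lat (G : M.Fam (Mat n)) (Q : (M.X → E (k + j)) → M.X → Prop) (U : E (k + j) → ℝ)
    (δ' : ℝ) (N : ℕ) (V₀ Λ : ℝ) {m : ℕ} (O : Fin m → Set M.X) (H : Fin m → M.X → E (k + j))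
    (χ : Fin m → M.X → ℝ) (F : M.X → ℝ) : Prop where
  atl : Atl M Q {t | ‖sx t‖ ≤ δ' / 2 ∧ U t ≤ Λ} {t | ‖sx t‖ ≤ δ'} N O H χ
  cont : Continuous F
  nn : ∀ x, 0 ≤ F x
  int : ∫ x, F x ∂M.mu G ≤ V₀
  le : ∀ H' x, Q H' x → ‖sx (H' x)‖ ≤ δ' / 2 → U (H' x) ≤ Λ → aH M G H' x ≤ F x

/-- A system of branches with an exhaustion function and finite mass. -/
structure Lsys (G η : M.Fam (Mat n)) (Q : (M.X → E (k + j)) → M.X → Prop) (U : E (k + j) → ℝ)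
    (δ' : ℝ) (N : ℕ) (V₀ : ℝ) : Prop where
  d0 : 0 < δ'
  sm : ∀ t, ‖sx t‖ ≤ δ' → ContDiffAt ℝ ∞ U t
  inv : ∀ t a, U (t + I • io j a) = U t
  hs : ∀ H x, Q H x → HolAt M H x ∧ EqAt M (M.hs (U ∘ H)) η x
  atl : ∀ Λ : ℝ, ∃ (m : ℕ) (O : Fin m → Set M.X) (H : Fin m → M.X → E (k + j))
    (χ : Fin m → M.X → ℝ) (F : M.X → ℝ), Lat M G Q U δ' N V₀ Λ O H χ F

/-- A cut-off function at the level `Λ` and a primitive of the square of its derivative. -/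
structure Cut (C Λ : ℝ) (θ g : ℝ → ℝ) : Prop where
  st : ContDiff ℝ ∞ θ
  sg : ContDiff ℝ ∞ g
  one : ∀ t ≤ Λ, θ t = 1
  zero : ∀ t, 2 * Λ ≤ t → θ t = 0 ∧ g t = 0 ∧ deriv θ t = 0
  bd : ∀ t, 0 ≤ θ t ∧ θ t ≤ 1 ∧ 0 ≤ g t ∧ g t ≤ C / Λ
  der : ∀ t, deriv g t = -deriv θ t ^ 2

/-- The linear system for the fields along the leaves. -/
def Sy (φ : M.Fam ℝ) (μ : Fin k → M.X → ℝ) (l : Fin q → M.X → ℂ) (e : M.Ch) (z : E n) (b : E q)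
    (v : E n) (c : E k) : Prop :=
  M.hw φ e z *ᵥ v = ∑ i, c i • dbv (μ i ∘ e.symm) z ∧ ∀ a, fderiv ℂ (l a ∘ e.symm) z v = b a

/-- The system has exactly one solution. -/
def Gd (φ : M.Fam ℝ) (μ : Fin k → M.X → ℝ) (l : Fin q → M.X → ℂ) (e : M.Ch) (z : E n) (b : E q)
    (v : E n) : Prop :=
  (∃ c, Sy M φ μ l e z b v c) ∧ ∀ v' c', Sy M φ μ l e z 0 v' c' → v' = 0 ∧ c' = 0

/-- The field of meromorphic functions. -/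
structure MF (K : Type) [Field K] (rep : K → M.X → ℂ) (κ : ℂ →+* K) : Prop where
  mer : ∀ α, Mer M (rep α)
  sur : ∀ g, Mer M g → ∃ α, rep α =ᶠ[Ff M.X] g
  inj : ∀ α β x, rep α =ᶠ[Gn x] rep β → α = β
  add : ∀ α β, ∀ᶠ y in Ff M.X, rep (α + β) y = rep α y + rep β y
  mul : ∀ α β, ∀ᶠ y in Ff M.X, rep (α * β) y = rep α y * rep β y
  cst : ∀ s, ∀ᶠ y in Ff M.X, rep (κ s) y = s
  hom : ∃ r : K →+* Germ (Ff M.X) ℂ, ∀ α, r α = (rep α : Germ (Ff M.X) ℂ)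

end defs

/-- Derivations that are partial derivatives in a chart. -/
structure DF {q j : ℕ} (M : Mf (q + j)) (K : Type) [Field K] (rep : K → M.X → ℂ) (κ : ℂ →+* K)
    (e : M.Ch) (a : E (q + j)) (R : ℝ) (D : Fin q → K → K) : Prop where
  add : ∀ b α β, D b (α + β) = D b α + D b β
  mul : ∀ b α β, D b (α * β) = α * D b β + D b α * β
  cst : ∀ b s, D b (κ s) = 0
  ch : ∀ b α, ∀ z ∈ ball a R, ∀ᶠ w in Gn z, rep (D b α) (e.symm w) = pd (rep α ∘ e.symm) b w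

/-! ### The zero estimate -/

/-- Admissible germs propagate on balls, and their pointwise properties. -/
def St_PROP : Prop := ∀ (n k j : ℕ) (M : Mf n) (G : M.Fam (Mat n)) (φ : M.Fam ℝ)
  (μ : Fin k → M.X → ℝ) (V : M.Cov) (ρ : (Fin k → ℝ) → M.X → ℝ) (Φ : E (k + j) × E (k + j) → ℂ)
  (δ c : ℝ) (O : Set M.X) (H₀ : M.X → E (k + j)) (ψ : E (k + j) → ℝ) (δ' c₁ : ℝ),
  Es M G φ μ V ρ Φ δ c O H₀ ψ δ' c₁ →
  (∀ e ∈ M.C, ∀ a R, ball a R ⊆ e.target → ∀ H : M.X → E (k + j),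
    DifferentiableOn ℂ (H ∘ e.symm) (ball a R) → (∀ z ∈ ball a R, ‖sx (H (e.symm z))‖ < 2 * δ) →
    ∀ z ∈ ball a R, AdmE M φ ρ ψ δ H (e.symm z) → ∀ z' ∈ ball a R, AdmE M φ ρ ψ δ H (e.symm z')) ∧
  ∀ H x, AdmE M φ ρ ψ δ H x → (∀ᶠ y in 𝓝 x, AdmE M φ ρ ψ δ H y) ∧
    (∀ H', H' =ᶠ[𝓝 x] H → AdmE M φ ρ ψ δ H' x) ∧ (x ∈ X0 M (M.hw φ) (k + j) → Subm M H x) ∧
    EqAt M (M.hs (uf ψ (mu0 Φ 0) ∘ H)) (M.hw φ) x

/-- Uniform extension of admissible germs. -/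
def St_EXTQ : Prop := ∀ (n k j : ℕ) (M : Mf n) (G : M.Fam (Mat n)) (φ : M.Fam ℝ)
  (μ : Fin k → M.X → ℝ) (V : M.Cov) (ρ : (Fin k → ℝ) → M.X → ℝ) (Φ : E (k + j) × E (k + j) → ℂ)
  (δ c : ℝ) (O : Set M.X) (H₀ : M.X → E (k + j)) (ψ : E (k + j) → ℝ) (δ' c₁ : ℝ),
  Es M G φ μ V ρ Φ δ c O H₀ ψ δ' c₁ → ∀ (L : ℝ) (x : M.X), ∃ O' ∈ 𝓝 x, IsOpen O' ∧
    IsPreconnected O' ∧ ∀ y ∈ O', ∀ H, AdmE M φ ρ ψ δ H y → ‖r2 (fx (H y))‖ ≤ L →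
      ‖sx (H y)‖ ≤ δ' / 2 → ∃ H', H' =ᶠ[𝓝 y] H ∧
        ∀ y' ∈ O', AdmE M φ ρ ψ δ H' y' ∧ ‖sx (H' y')‖ ≤ δ'

/-- Finite multiplicity. -/
def St_FINE : Prop := ∀ (n k j N : ℕ) (M : Mf n) (G : M.Fam (Mat n)) (φ : M.Fam ℝ)
  (μ : Fin k → M.X → ℝ) (V : M.Cov) (ρ : (Fin k → ℝ) → M.X → ℝ) (Φ : E (k + j) × E (k + j) → ℂ)
  (δ c : ℝ) (O : Set M.X) (H₀ : M.X → E (k + j)) (ψ : E (k + j) → ℝ) (δ' c₁ : ℝ),
  Es M G φ μ V ρ Φ δ c O H₀ ψ δ' c₁ → Fin0 Φ δ N → ∀ y ∈ X0 M (M.hw φ) (k + j),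
  ∀ H : Fin (N + 1) → M.X → E (k + j), (∀ i, AdmE M φ ρ ψ δ (H i) y ∧ ‖sx (H i y)‖ ≤ δ') →
  ∃ i i', i ≠ i' ∧ Tr (H i) (H i') y

/-- The lower bound for the Hessian of the regularised minimum. -/
def St_LOW : Prop := ∀ (n k j : ℕ) (M : Mf n) (G : M.Fam (Mat n)) (φ : M.Fam ℝ)
  (μ : Fin k → M.X → ℝ) (V : M.Cov) (ρ : (Fin k → ℝ) → M.X → ℝ) (Φ : E (k + j) × E (k + j) → ℂ)
  (δ c : ℝ) (O : Set M.X) (H₀ : M.X → E (k + j)) (ψ : E (k + j) → ℝ) (δ' c₁ : ℝ),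
  Es M G φ μ V ρ Φ δ c O H₀ ψ δ' c₁ → ∀ L : ℝ, ∃ ε > 0, ∀ P ξ, Mn M φ ρ (mu0 Φ 0) ε P ξ →
  ∀ H y, AdmE M φ ρ ψ δ H y → ‖r2 (fx (H y))‖ ≤ L → ‖sx (H y)‖ ≤ δ' → At M y fun e z =>
    (M.hw φ e z + M.hs P e z - (c : ℂ) • pb M H (ps k j) e z).PosSemidef

/-- The mass bound. -/
def St_MASS : Prop := ∀ (n k j : ℕ) (M : Mf n) [M.Cpt] (G η : M.Fam (Mat n)) (c : ℝ), M.Kae G →
  M.Clo η → 0 < c → ∃ V₀ : ℝ, ∀ P, M.Sm P → M.Le 0 (η + M.hs P) → ∃ F : M.X → ℝ, Continuous F ∧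
    (∀ x, 0 ≤ F x) ∧ ∫ x, F x ∂M.mu G ≤ V₀ ∧ ∀ (H : M.X → E (k + j)) (y : M.X), HolAt M H y →
      (At M y fun e z => (η e z + M.hs P e z - (c : ℂ) • pb M H (ps k j) e z).PosSemidef) →
      aH M G H y ≤ F y

/-- The system of admissible branches. -/
def St_LSYS : Prop := ∀ (n k j N : ℕ) (M : Mf n) [M.Cpt] (G : M.Fam (Mat n)) (φ : M.Fam ℝ)
  (μ : Fin k → M.X → ℝ) (V : M.Cov) (ρ : (Fin k → ℝ) → M.X → ℝ) (Φ : E (k + j) × E (k + j) → ℂ)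
  (δ c : ℝ) (O : Set M.X) (H₀ : M.X → E (k + j)) (ψ : E (k + j) → ℝ) (δ' c₁ : ℝ),
  Es M G φ μ V ρ Φ δ c O H₀ ψ δ' c₁ → Fin0 Φ δ N →
  ∃ V₀, Lsys M G (M.hw φ) (AdmE M φ ρ ψ δ) (uf ψ (mu0 Φ 0)) δ' N V₀

/-- The density of a branch. -/
def St_TOPK : Prop := ∀ (q k j : ℕ) (M : Mf (q + j)) (G : M.Fam (Mat (q + j))) (O : Set M.X)
  (H : M.X → E (k + j)), M.Kae G → IsOpen O → (∀ x ∈ O, HolAt M H x) →
  DenOn M O (sH M G H) ∧ ∀ x ∈ O, ContinuousAt (aH M G H) x ∧ 0 ≤ aH M G H x ∧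
    (At M x fun e z => (sH M G H e z).PosSemidef) ∧ pa M G (sH M G H) G x = q * aH M G H x ∧
    (∀ T : M.Fam (Mat (q + j)), (At M x fun e z => (T e z).PosSemidef) →
      0 ≤ pa M G (sH M G H) T x) ∧
    (∀ (T : M.Fam (Mat (q + j))) (C : ℝ), (At M x fun e z => (C • G e z - T e z).PosSemidef) →
      pa M G (sH M G H) T x ≤ C * (q * aH M G H x)) ∧
    (∀ (g : E j → ℝ) (u : M.X → ℝ), ContDiffAt ℝ ∞ g (sx (H x)) → SmAt M u x →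
      pa M G (sH M G H) (M.ds u fun y => g (sx (H y))) x = 0) ∧
    (∀ T, M.Ten T → ContinuousAt (pa M G (sH M G H) T) x) ∧
    (∀ u w : M.X → ℝ, (∀ y ∈ O, SmAt M u y ∧ SmAt M w y) →
      ContinuousAt (pa M G (sH M G H) (M.hs u)) x ∧
      ContinuousAt (pa M G (sH M G H) (M.ds u w)) x) ∧
    ∀ H', Tr H H' x → HolAt M H' x ∧ EqAt M (sH M G H) (sH M G H') x ∧
      aH M G H x = aH M G H' x ∧ ∀ᶠ y in 𝓝 x, sx (H' y) = sx (H y)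

/-- Calculus of the pairing. -/
def St_PAK : Prop := ∀ (n : ℕ) (M : Mf n) (G A : M.Fam (Mat n)) (x : M.X),
  (∀ (S T : M.Fam (Mat n)) (s : ℝ), pa M G A (S + T) x = pa M G A S x + pa M G A T x ∧
    pa M G A (s • T) x = s * pa M G A T x ∧ (EqAt M S T x → pa M G A S x = pa M G A T x) ∧
    ∀ A', EqAt M A A' x → pa M G A T x = pa M G A' T x) ∧
  (∀ u g w : M.X → ℝ, SmAt M u x → SmAt M g x → SmAt M w x → SmAt M (fun y => g y * w y) x ∧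
    pa M G A (M.ds u fun y => g y * w y) x =
      g x * pa M G A (M.ds u w) x + w x * pa M G A (M.ds u g) x) ∧
  ∀ (u w : M.X → ℝ) (θ : ℝ → ℝ), SmAt M u x → SmAt M w x → ContDiffAt ℝ ∞ θ (w x) →
    SmAt M (fun y => θ (w y)) x ∧
    pa M G A (M.ds u fun y => θ (w y)) x = deriv θ (w x) * pa M G A (M.ds u w) x

/-- Cut-off functions. -/
def St_CUT : Prop := ∃ C : ℝ, 0 < C ∧ ∀ Λ : ℝ, 0 < Λ → ∃ θ g, Cut C Λ θ g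

/-- Integration on branches. -/
def St_ATK : Prop := ∀ (n k j m N : ℕ) (M : Mf n) [M.Cpt] (G : M.Fam (Mat n))
  (Q : (M.X → E (k + j)) → M.X → Prop) (K K' : Set (E (k + j))) (O : Fin m → Set M.X)
  (H : Fin m → M.X → E (k + j)) (χ : Fin m → M.X → ℝ), M.Met G → Atl M Q K K' N O H χ →
  (∀ i (p : M.X → ℝ), (∀ x ∈ O i, ContinuousAt p x) →
    Integrable (fun x => χ i x * p x) (M.mu G)) ∧
  (∀ p p' : Fin m → M.X → ℝ,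
    (∀ i, ∀ x ∈ O i, ContinuousAt (p i) x ∧ ContinuousAt (p' i) x ∧ p i x ≤ p' i x) →
    ∑ i, ∫ x, χ i x * p i x ∂M.mu G ≤ ∑ i, ∫ x, χ i x * p' i x ∂M.mu G) ∧
  (∀ (p : Fin m → M.X → ℝ) (F : M.X → ℝ), Continuous F → (∀ x, 0 ≤ F x) →
    (∀ i, ∀ x ∈ O i, ContinuousAt (p i) x ∧ p i x ≤ F x) →
    ∑ i, ∫ x, χ i x * p i x ∂M.mu G ≤ N * ∫ x, F x ∂M.mu G) ∧
  (∀ (p : Fin m → M.X → ℝ) (H₀ : M.X → E (k + j)) (p₀ : M.X → ℝ) (B : Set M.X), MeasurableSet B →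
    (∀ i, ∀ x ∈ O i, ContinuousAt (p i) x ∧ 0 ≤ p i x) →
    (∀ x ∈ B, 0 ≤ p₀ x ∧ (p₀ x ≠ 0 → Q H₀ x ∧ H₀ x ∈ K ∧
      ∀ i, x ∈ O i → Tr (H i) H₀ x → p i x = p₀ x)) →
    ∫ x in B, p₀ x ∂M.mu G ≤ ∑ i, ∫ x, χ i x * p i x ∂M.mu G) ∧
  ∀ (A : Fin m → M.Fam (Mat n)) (u w : Fin m → M.X → ℝ), (∀ i, DenOn M (O i) (A i)) →
    (∀ i, ∀ x ∈ O i, SmAt M (u i) x ∧ SmAt M (w i) x ∧ (w i x ≠ 0 → H i x ∈ K) ∧
      ContinuousAt (pa M G (A i) (M.hs (u i))) x ∧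
      ContinuousAt (pa M G (A i) (M.ds (u i) (w i))) x) →
    (∀ i i' x, x ∈ O i → x ∈ O i' → Tr (H i) (H i') x → EqAt M (A i) (A i') x ∧ w i x = w i' x ∧
      u i' =ᶠ[𝓝 x] u i) →
    ∑ i, ∫ x, χ i x * (w i x * pa M G (A i) (M.hs (u i)) x) ∂M.mu G =
      -∑ i, ∫ x, χ i x * pa M G (A i) (M.ds (u i) (w i)) x ∂M.mu G

/-- The energy bound. -/
def St_ENE : Prop := ∀ (q k j N : ℕ) (M : Mf (q + j)) [M.Cpt] (G η : M.Fam (Mat (q + j)))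
  (Q : (M.X → E (k + j)) → M.X → Prop) (U : E (k + j) → ℝ) (δ' V₀ C : ℝ), M.Kae G → M.Form η →
  Lsys M G η Q U δ' N V₀ → 0 < C → ∃ C' : ℝ, ∀ (Λ : ℝ) (m : ℕ) (O : Fin m → Set M.X)
    (H : Fin m → M.X → E (k + j)) (χ : Fin m → M.X → ℝ) (F : M.X → ℝ) (θ g : ℝ → ℝ)
    (ψ : E j → ℝ), 0 < Λ → Lat M G Q U δ' N V₀ (2 * Λ) O H χ F → Cut C Λ θ g → ContDiff ℝ ∞ ψ →
    (∀ s, 0 ≤ ψ s ∧ ψ s ≤ 1 ∧ (ψ s ≠ 0 → ‖s‖ ≤ δ' / 2)) →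
    ∑ i, ∫ x, χ i x * (ψ (sx (H i x)) * deriv θ (U (H i x)) ^ 2 *
      pa M G (sH M G (H i)) (M.ds (U ∘ H i) (U ∘ H i)) x) ∂M.mu G ≤ C' / Λ

/-- The branches carry almost closed currents. -/
def St_CLO : Prop := ∀ (q k j N : ℕ) (M : Mf (q + j)) [M.Cpt] (G η : M.Fam (Mat (q + j)))
  (Q : (M.X → E (k + j)) → M.X → Prop) (U : E (k + j) → ℝ) (δ' V₀ C ε : ℝ) (v : M.X → ℝ),
  M.Kae G → M.Form η → Lsys M G η Q U δ' N V₀ → 0 < C → 0 < ε → M.Sm v →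
  ∀ᶠ Λ : ℝ in atTop, ∀ (m : ℕ) (O : Fin m → Set M.X) (H : Fin m → M.X → E (k + j))
    (χ : Fin m → M.X → ℝ) (F : M.X → ℝ) (θ g : ℝ → ℝ) (ψ : E j → ℝ),
    Lat M G Q U δ' N V₀ (2 * Λ) O H χ F → Cut C Λ θ g → ContDiff ℝ ∞ ψ →
    (∀ s, 0 ≤ ψ s ∧ ψ s ≤ 1 ∧ (ψ s ≠ 0 → ‖s‖ ≤ δ' / 2)) →
    ∑ i, ∫ x, χ i x * (ψ (sx (H i x)) * θ (U (H i x)) * pa M G (sH M G (H i)) (M.hs v) x)
      ∂M.mu G ≤ ε

/-- The bound on one branch. -/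
def St_CAC : Prop := ∀ (q k j N : ℕ) (M : Mf (q + j)) [M.Cpt] (G η : M.Fam (Mat (q + j)))
  (Q : (M.X → E (k + j)) → M.X → Prop) (U : E (k + j) → ℝ) (δ' V₀ Λ₀ : ℝ) (H₀ : M.X → E (k + j))
  (B : Set M.X) (κ : Type) [Fintype κ] (ψ : κ → E j → ℝ) (v : κ → M.X → ℝ) (d : κ → ℝ),
  M.Kae G → M.Form η → Lsys M G η Q U δ' N V₀ → MeasurableSet B →
  (∀ x ∈ B, Q H₀ x ∧ U (H₀ x) ≤ Λ₀) → Bumps (ball 0 (δ' / 2)) ψ →
  (∀ b, 0 < d b ∧ M.Sm (v b) ∧ M.Le 0 (M.hs (v b) + d b • G)) →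
  ∑ b, (d b)⁻¹ * ∫ x in B, ψ b (sx (H₀ x)) * pa M G (sH M G H₀) (M.hs (v b) + d b • G) x
    ∂M.mu G ≤ q * (N * V₀)

/-! ### Algebraic equations -/

/-- Meromorphic functions up to nowhere dense sets. -/
def St_MRG : Prop := ∀ (n : ℕ) (M : Mf n),
  (∀ W, Cothin M W → ∀ᶠ y in Ff M.X, y ∈ W) ∧
  (∀ g, Mer M g → (∀ᶠ y in Ff M.X, HolAt M g y) ∧ ∀ x, ∃ a b : M.X → ℂ, HolAt M a x ∧
    HolAt M b x ∧ (∃ᶠ y in 𝓝 x, b y ≠ 0) ∧ ∀ᶠ y in 𝓝 x, b y ≠ 0 → g y = a y / b y) ∧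
  (∀ g : M.X → ℂ, (∀ x, ∃ a b : M.X → ℂ, HolAt M a x ∧ HolAt M b x ∧ (∃ᶠ y in 𝓝 x, b y ≠ 0) ∧
    ∀ᶠ y in Gn x, g y = a y / b y) → ∃ g', Mer M g' ∧ g' =ᶠ[Ff M.X] g) ∧
  (M.Cpt → ∀ g, Mer M g → (∀ x, (∀ᶠ y in Gn x, g y = 0) → ∀ᶠ y in Ff M.X, g y = 0) ∧
    (¬(∀ᶠ y in Ff M.X, g y = 0) → ∃ g', Mer M g' ∧ ∀ᶠ y in Ff M.X, g y * g' y = 1))

/-- The field. -/
def St_KK : Prop := ∀ (n : ℕ) (M : Mf n) [M.Cpt],
  ∃ (K : Type) (_ : Field K) (_ : CharZero K) (rep : K → M.X → ℂ) (κ : ℂ →+* K), MF M K rep κ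

/-- Holomorphic linear systems. -/
def St_LINQ : Prop := ∀ (n : ℕ) (p m : Type) [Fintype p] [Fintype m] (c : E n) (R : ℝ)
  (A : E n → Matrix p m ℂ) (b : E n → p → ℂ) (z₀ : E n),
  (∀ i l, DifferentiableOn ℂ (fun z => A z i l) (ball c R)) → DifferentiableOn ℂ b (ball c R) →
  z₀ ∈ ball c R → (∀ w, A z₀ *ᵥ w = 0 → w = 0) → (∀ᶠ z in 𝓝 z₀, ∃ w, A z *ᵥ w = b z) →
  ∃ (δ : E n → ℂ) (w : E n → m → ℂ), DifferentiableOn ℂ δ (ball c R) ∧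
    DifferentiableOn ℂ w (ball c R) ∧ δ z₀ ≠ 0 ∧ ∀ z ∈ ball c R, A z *ᵥ w z = δ z • b z ∧
      (δ z ≠ 0 → ∀ w', A z *ᵥ w' = 0 → w' = 0)

/-- The first half of the system is holomorphic. -/
def St_LOCQ : Prop := ∀ (n k r : ℕ) (M : Mf n) (G : M.Fam (Mat n)) (φ : M.Fam ℝ)
  (μ : Fin k → M.X → ℝ), Su M G φ r → HF M φ r → Kf M φ r μ → ∀ e ∈ M.C, ∀ c ∈ e.target,
  ∃ R > 0, ball c R ⊆ e.target ∧ ∃ (A : E n → Mat n) (B : Fin k → E n → E n),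
    (∀ i l, DifferentiableOn ℂ (fun z => A z i l) (ball c R)) ∧
    (∀ i, DifferentiableOn ℂ (B i) (ball c R)) ∧ ∀ z₁ ∈ ball c R, ∀ᶠ z in Gn z₁,
      ∀ (v : E n) (s : E k), M.hw φ e z *ᵥ v = ∑ i, s i • dbv (μ i ∘ e.symm) z ↔
        A z *ᵥ v = ∑ i, s i • B i z

/-- Change of chart. -/
def St_SYC : Prop := ∀ (n k q : ℕ) (M : Mf n) (φ : M.Fam ℝ) (μ : Fin k → M.X → ℝ)
  (l : Fin q → M.X → ℂ) (b : E q),
  (∀ e z v v', Gd M φ μ l e z b v → Gd M φ μ l e z b v' → v = v') ∧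
  ∀ e ∈ M.C, ∀ e' ∈ M.C, ∀ x ∈ e.source, x ∈ e'.source →
    (∀ g : M.X → ℂ, HolAt M g x → ∀ v,
      fderiv ℂ (g ∘ e'.symm) (e' x) v = fderiv ℂ (g ∘ e.symm) (e x) (M.J e e' x *ᵥ v)) ∧
    (WtP M φ → (∀ i, SmAt M (μ i) x) → (∀ a, HolAt M (l a) x) → ∀ v,
      Gd M φ μ l e' (e' x) b v → Gd M φ μ l e (e x) b (M.J e e' x *ᵥ v))

/-- The system in the adapted chart. -/
def St_BXS : Prop := ∀ (q k j : ℕ) (M : Mf (q + j)) (ι : Type) [Fintype ι] (f : M.X → ι → ℂ)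
  (φ : M.Fam ℝ) (μ : Fin k → M.X → ℝ) (x₀ : M.X) (Φ : E (k + j) × E (k + j) → ℂ) (δ c : ℝ)
  (O : Set M.X) (H : M.X → E (k + j)) (σ : E (k + j) → M.X) (i₀ : ι) (ix : Fin q → ι) (e : M.Ch)
  (a : E (q + j)) (R : ℝ), Pot M φ (k + j) → Box M φ μ x₀ Φ δ c O H σ →
  Ebx M f i₀ ix O H e a R → ∀ z ∈ ball a R, ∀ b,
    Gd M φ μ (fun b' x => af f i₀ x (ix b')) e z (Pi.single b 1) (Pi.single (Fin.castAdd j b) 1)

/-- The solution is a meromorphic vector field. -/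
def Vec {n k q : ℕ} (M : Mf n) (φ : M.Fam ℝ) (μ : Fin k → M.X → ℝ) (l : Fin q → M.X → ℂ)
    (b : E q) : Prop :=
  M.All fun e z => ∃ (δ : E n → ℂ) (Ξ : E n → E n), HolN δ z ∧ HolN Ξ z ∧ (∃ᶠ w in 𝓝 z, δ w ≠ 0) ∧
    ∀ᶠ w in Gn z, Gd M φ μ l e w b ((δ w)⁻¹ • Ξ w)

/-- Propagation. -/
def St_VEC : Prop := ∀ (n k q r : ℕ) (M : Mf n) [M.Cpt] (G : M.Fam (Mat n)) (φ : M.Fam ℝ)
  (μ : Fin k → M.X → ℝ) (l : Fin q → M.X → ℂ) (b : E q), Su M G φ r → HF M φ r → Kf M φ r μ →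
  (∀ a, Mer M (l a)) → (∃ e ∈ M.C, ∃ z ∈ e.target, ∀ᶠ w in 𝓝 z, ∃ v, Gd M φ μ l e w b v) →
  Vec M φ μ l b

/-- The derivative of a meromorphic function. -/
def St_DER : Prop := ∀ (n k q : ℕ) (M : Mf n) (φ : M.Fam ℝ) (μ : Fin k → M.X → ℝ)
  (l : Fin q → M.X → ℂ) (b : E q), WtP M φ → (∀ i x, AnAt M (μ i) x) → (∀ a, Mer M (l a)) →
  Vec M φ μ l b → ∀ g, Mer M g → ∃ g', Mer M g' ∧ M.All fun e z => ∀ᶠ w in Gn z, ∀ v,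
    Gd M φ μ l e w b v → g' (e.symm w) = fderiv ℂ (g ∘ e.symm) w v

/-- The derivations of the field, and their constants. -/
def St_DK : Prop := ∀ (q j : ℕ) (M : Mf (q + j)) (K : Type) [Field K] (rep : K → M.X → ℂ)
  (κ : ℂ →+* K) (e : M.Ch) (a : E (q + j)) (R : ℝ), MF M K rep κ → e ∈ M.C → 0 < R →
  ball a R ⊆ e.target →
  ((∀ b g, Mer M g → ∃ g', Mer M g' ∧
    ∀ z ∈ ball a R, ∀ᶠ w in Gn z, g' (e.symm w) = pd (g ∘ e.symm) b w) →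
    ∃ D, DF M K rep κ e a R D) ∧
  ∀ D, DF M K rep κ e a R D → ∀ b α, D b α = 0 → ∀ g, g =ᶠ[Ff M.X] rep α → ∀ z ∈ ball a R,
    HolAt M g (e.symm z) → pd (g ∘ e.symm) b z = 0

/-- Dependence over the constants. -/
def St_WDEP : Prop := ∀ (q k j : ℕ) (M : Mf (q + j)) [M.Cpt] (ι : Type) [Fintype ι]
  (f : M.X → ι → ℂ) (O : Set M.X) (H : M.X → E (k + j)) (i₀ : ι) (ix : Fin q → ι) (e : M.Ch)
  (a : E (q + j)) (R : ℝ) (K : Type) [Field K] (rep : K → M.X → ℂ) (κ : ℂ →+* K)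
  (D : Fin q → K → K) (ζ : ι → K), PMap M f → Ebx M f i₀ ix O H e a R → Dep M f i₀ e a R →
  MF M K rep κ → DF M K rep κ e a R D → (∀ l, rep (ζ l) =ᶠ[Ff M.X] fun x => af f i₀ x l) →
  ∃ m : ℕ, ∀ l, ∃ A : (Fin q → Fin (m + 1)) × Fin (m + 1) → K, A ≠ 0 ∧ (∀ α b, D b (A α) = 0) ∧
    ∑ α, A α * ((∏ b, ζ (ix b) ^ (α.1 b).val) * ζ l ^ α.2.val) = 0

/-- The polynomial in the last variable. -/
def spc {q m : ℕ} {K : Type} [Field K] (κ : ℂ →+* K) (A : (Fin q → Fin (m + 1)) × Fin (m + 1) → K)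
    (c : E q) : Polynomial K :=
  ∑ α, Polynomial.C (A α * ∏ b, κ (c b) ^ (α.1 b).val) * Polynomial.X ^ α.2.val

/-- Specialisation and radicals. -/
def St_AL1 : Prop := ∀ (q m : ℕ) (ι : Type) [Fintype ι] (K : Type) [Field K] [CharZero K]
  (κ : ℂ →+* K) (D : Fin q → K → K) (A : ι → (Fin q → Fin (m + 1)) × Fin (m + 1) → K) (c : E q)
  (R : ℝ), (∀ b α β, D b (α + β) = D b α + D b β) → (∀ b α β, D b (α * β) = α * D b β + D b α * β) →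
  (∀ b s, D b (κ s) = 0) → (∀ l, A l ≠ 0) → (∀ l α b, D b (A l α) = 0) → 0 < R →
  ∃ c' ∈ ball c R, ∀ l, ∃ (P U V Q : Polynomial K) (N : ℕ), P.Monic ∧
    (∀ i b, D b (P.coeff i) = 0) ∧ U * P + V * Polynomial.derivative P = 1 ∧
    P ^ N = spc κ (A l) c' * Q

/-- From polynomials over the field to families of polynomials. -/
def St_AL2 : Prop := ∀ (n : ℕ) (M : Mf n) (K : Type) [Field K] (rep : K → M.X → ℂ) (κ : ℂ →+* K)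
  (P U V : Polynomial K), MF M K rep κ → P.Monic → U * P + V * Polynomial.derivative P = 1 →
  ∃ (W : Set M.X) (p : M.X → Polynomial ℂ), Cothin M W ∧
    (∀ x, (p x).Monic ∧ (p x).natDegree = P.natDegree) ∧ (∀ i, Mer M fun x => (p x).coeff i) ∧
    (∀ i, ∀ x ∈ W, HolAt M (fun x => (p x).coeff i) x) ∧ (∀ x ∈ W, (p x).Separable) ∧
    ∀ i, (fun x => (p x).coeff i) =ᶠ[Ff M.X] rep (P.coeff i)

/-- The root. -/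
def St_AL3 : Prop := ∀ (q j m : ℕ) (M : Mf (q + j)) (K : Type) [Field K] (rep : K → M.X → ℂ)
  (κ : ℂ →+* K) (e : M.Ch) (a : E (q + j)) (R : ℝ) (c : E q)
  (A : (Fin q → Fin (m + 1)) × Fin (m + 1) → K) (lam : Fin q → K) (ζ : K) (y : E (q + j) → ℂ)
  (P Q : Polynomial K) (N : ℕ) (p : M.X → Polynomial ℂ), MF M K rep κ → e ∈ M.C →
  ball a R ⊆ e.target → c ∈ ball (fx a) R →
  (∀ α, ∀ z ∈ ball a R, HolAt M (rep (A α)) (e.symm z) ∧ ∀ b, pd (rep (A α) ∘ e.symm) b z = 0) →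
  ∑ α, A α * ((∏ b, lam b ^ (α.1 b).val) * ζ ^ α.2.val) = 0 → ContinuousOn y (ball a R) →
  (∀ z ∈ ball a R, ∀ᶠ w in Gn z, rep ζ (e.symm w) = y w ∧ ∀ b, rep (lam b) (e.symm w) = fx w b) →
  P ^ N = spc κ A c * Q → (∀ x, (p x).natDegree = P.natDegree) →
  (∀ i, (fun x => (p x).coeff i) =ᶠ[Ff M.X] rep (P.coeff i)) →
  ∀ z ∈ ball a R, (∀ i, ContinuousAt (fun x => (p x).coeff i) (e.symm z)) →
    (p (e.symm z)).eval (y (Fin.append c (sx z))) = 0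

/-! ### Generic properties in charts -/

section gen

variable {n : ℕ} {M : Mf n} {e : M.Ch} {x : M.X} {z : E n} {p : M.X → Prop}

theorem gn_ch (hx : x ∈ e.source) : (∀ᶠ y in Gn x, p y) ↔ ∀ᶠ w in Gn (e x), p (e.symm w) := by
  rw [ev_Gn, ev_Gn, ev_ch hx]
  refine eventually_congr ?_
  filter_upwards [e.open_target.mem_nhds (e.map_source hx)] with w hw
  rw [fr_ch (e.map_target hw), e.right_inv hw]
  refine frequently_congr ?_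
  filter_upwards [e.open_target.mem_nhds hw] with w' hw'
  rw [ev_ch (e.map_target hw'), e.right_inv hw']

theorem gn_ch' (hz : z ∈ e.target) : (∀ᶠ y in Gn (e.symm z), p y) ↔ ∀ᶠ w in Gn z, p (e.symm w) := by
  rw [gn_ch (e.map_target hz), e.right_inv hz]

theorem gn_of_ff (hz : z ∈ e.target) (h : ∀ᶠ y in Ff M.X, p y) : ∀ᶠ w in Gn z, p (e.symm w) :=
  (gn_ch' hz).1 (Gn_of_Ff h _)

end gen

end Pool.Agent.Lib.RAE
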